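import Pool.Agent.Swp.Round

/-!
# Swp.SpreadLow: graphs all of whose large induced subgraphs have a large degree spread

A derandomised random graph with edge probabilities `(u + v) / (2 n)`.
-/

namespace Swp

open Finset

theorem sum_lt_symm {n : ℕ} (S : Finset (Fin n)) (g : Fin n → ℝ) (h : Fin n → Fin n → ℝ)
    (hh : ∀ u v, h u v = h v u) :
    ∑ u ∈ S, ∑ v ∈ S, (if u < v then (g u + g v) * h u v else 0) =
      ∑ u ∈ S, ∑ v ∈ S, (if u ≠ v then g u * h u v else 0) := by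
  have h1 : ∑ u ∈ S, ∑ v ∈ S, (if u ≠ v then g u * h u v else 0) =
      ∑ u ∈ S, ∑ v ∈ S, (if u < v then g u * h u v else 0) + ∑ u ∈ S, ∑ v ∈ S, (if v < u then g u * h u v else 0) := by
    rw [← sum_add_distrib]
    refine sum_congr rfl fun u _ => ?_
    rw [← sum_add_distrib]
    refine sum_congr rfl fun v _ => ?_
    rcases lt_trichotomy u v with h | h | h
    · rw [if_pos h.ne, if_pos h, if_neg h.not_gt, add_zero]
    · rw [if_neg (not_not.2 h), if_neg (by rw [h]; exact lt_irrefl _), if_neg (by rw [h]; exact lt_irrefl _), add_zero]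
    · rw [if_pos h.ne', if_neg h.not_gt, if_pos h, zero_add]
  have h2 : ∑ u ∈ S, ∑ v ∈ S, (if v < u then g u * h u v else 0) =
      ∑ u ∈ S, ∑ v ∈ S, (if u < v then g v * h u v else 0) := by
    rw [sum_comm]
    refine sum_congr rfl fun u _ => sum_congr rfl fun v _ => ?_
    rw [hh u v]
  rw [h1, h2, ← sum_add_distrib]
  refine sum_congr rfl fun u _ => ?_
  rw [← sum_add_distrib]
  refine sum_congr rfl fun v _ => ?_
  split_ifs
  · ring
  · ring

theorem near_card {n : ℕ} (S : Finset (Fin n)) (c r : ℝ) (hr : 0 ≤ r) :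
    ((S.filter fun u : Fin n => |((u : ℕ) : ℝ) - c| < r).card : ℝ) ≤ 2 * r + 1 := by
  have h1 : (S.filter fun u : Fin n => |((u : ℕ) : ℝ) - c| < r).card ≤ (Icc ⌈c - r⌉ ⌊c + r⌋).card := by
    apply card_le_card_of_injOn (fun u : Fin n => ((u : ℕ) : ℤ))
    · intro u hu
      rw [mem_coe, mem_filter] at hu
      have h2 := abs_lt.1 hu.2
      rw [mem_coe, mem_Icc]
      constructor
      · rw [Int.ceil_le]
        push_cast
        linarith [h2.1]
      · rw [Int.le_floor]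
        push_cast
        linarith [h2.2]
    · intro u _ v _ huv
      simp only at huv
      have h3 : (u : ℕ) = (v : ℕ) := by exact_mod_cast huv
      exact Fin.ext h3
  have h2 : ((Icc ⌈c - r⌉ ⌊c + r⌋).card : ℝ) ≤ 2 * r + 1 := by
    rw [Int.card_Icc]
    have h3 : ((⌊c + r⌋ + 1 - ⌈c - r⌉ : ℤ) : ℝ) ≤ 2 * r + 1 := by
      push_cast
      have := Int.floor_le (c + r)
      have := Int.le_ceil (c - r)
      linarith
    rcases le_total 0 (⌊c + r⌋ + 1 - ⌈c - r⌉) with h | h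
    · have h4 : (((⌊c + r⌋ + 1 - ⌈c - r⌉).toNat : ℤ) : ℝ) = ((⌊c + r⌋ + 1 - ⌈c - r⌉ : ℤ) : ℝ) := by
        rw [Int.toNat_of_nonneg h]
      rw [Int.cast_natCast] at h4
      rw [h4]
      exact h3
    · rw [Int.toNat_of_nonpos h]
      push_cast
      linarith
  exact le_trans (by exact_mod_cast h1) h2

theorem var_ge {n : ℕ} (S : Finset (Fin n)) (c : ℝ) (hk : 4 ≤ S.card) :
    (S.card : ℝ) ^ 3 / 64 ≤ ∑ u ∈ S, (((u : ℕ) : ℝ) - c) ^ 2 := by
  obtain ⟨k, hkd⟩ : ∃ k : ℝ, k = S.card := ⟨_, rfl⟩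
  have hk4 : 4 ≤ k := by rw [hkd]; exact_mod_cast hk
  rw [← hkd]
  have h1 := near_card S c (k / 4) (by linarith)
  have h2 : (((S.filter fun u : Fin n => |((u : ℕ) : ℝ) - c| < k / 4).card : ℝ)) +
      ((S.filter fun u : Fin n => ¬ |((u : ℕ) : ℝ) - c| < k / 4).card : ℝ) = k := by
    rw [hkd]
    exact_mod_cast card_filter_add_card_filter_not (s := S) (fun u : Fin n => |((u : ℕ) : ℝ) - c| < (S.card : ℝ) / 4)
  have h3 : ((S.filter fun u : Fin n => ¬ |((u : ℕ) : ℝ) - c| < k / 4).card : ℝ) * (k / 4) ^ 2 ≤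
      ∑ u ∈ S, (((u : ℕ) : ℝ) - c) ^ 2 := by
    calc ((S.filter fun u : Fin n => ¬ |((u : ℕ) : ℝ) - c| < k / 4).card : ℝ) * (k / 4) ^ 2
        = ∑ _u ∈ S.filter fun u : Fin n => ¬ |((u : ℕ) : ℝ) - c| < k / 4, (k / 4) ^ 2 := by rw [sum_const, nsmul_eq_mul]
      _ ≤ ∑ u ∈ S.filter fun u : Fin n => ¬ |((u : ℕ) : ℝ) - c| < k / 4, (((u : ℕ) : ℝ) - c) ^ 2 := by
          refine sum_le_sum fun u hu => ?_
          rw [mem_filter] at hu
          rw [← sq_abs (((u : ℕ) : ℝ) - c)]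
          exact pow_le_pow_left₀ (by linarith) (not_lt.1 hu.2) 2
      _ ≤ _ := sum_le_sum_of_subset_of_nonneg (filter_subset _ _) fun u _ _ => sq_nonneg _
  have h4 : k / 4 ≤ ((S.filter fun u : Fin n => ¬ |((u : ℕ) : ℝ) - c| < k / 4).card : ℝ) := by linarith
  have h5 : k / 4 * (k / 4) ^ 2 ≤ ((S.filter fun u : Fin n => ¬ |((u : ℕ) : ℝ) - c| < k / 4).card : ℝ) * (k / 4) ^ 2 :=
    mul_le_mul_of_nonneg_right h4 (by positivity)
  nlinarith

theorem exp_sub_one_le' {x : ℝ} (h : |x| ≤ 1) : Real.exp x - 1 ≤ x + x ^ 2 := by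
  have h2 := Real.abs_exp_sub_one_sub_id_le (x := x) h
  have h3 := (abs_le.1 h2).2
  linarith

open Classical in
theorem spread_low (n : ℕ) (hn : 2 ≤ n) : ∃ G : SimpleGraph (Fin n), ∀ S : Finset (Fin n),
    32768 * (n : ℝ) ^ 2 * Real.log n ≤ (S.card : ℝ) ^ 3 → ∃ u ∈ S, ∃ v ∈ S,
      ((S.filter fun w => G.Adj v w).card : ℝ) + (S.card : ℝ) ^ 2 / (64 * n) ≤ (S.filter fun w => G.Adj u w).card := by
  have hn2 : (2 : ℝ) ≤ n := by exact_mod_cast hn
  have hn0 : (0 : ℝ) < n := by linarith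
  have hlog : 0 < Real.log n := Real.log_pos (by linarith)
  obtain ⟨lam, hlam⟩ : ∃ lam : ℝ, lam = 1 / (16 * n) := ⟨_, rfl⟩
  have hlam0 : 0 < lam := by rw [hlam]; positivity
  obtain ⟨g, hg⟩ : ∃ g : Finset (Fin n) → Fin n → ℝ, ∀ S u, g S u = ((u : ℕ) : ℝ) - (∑ w ∈ S, ((w : ℕ) : ℝ)) / S.card :=
    ⟨_, fun _ _ => rfl⟩
  obtain ⟨V, hV⟩ : ∃ V : Finset (Fin n) → ℝ, ∀ S, V S = ∑ u ∈ S, g S u ^ 2 := ⟨_, fun _ => rfl⟩
  obtain ⟨EX, hEX⟩ : ∃ EX : Finset (Fin n) → ℝ, ∀ S, EX S = ((S.card : ℝ) - 2) / (2 * n) * V S := ⟨_, fun _ => rfl⟩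
  obtain ⟨p, hp⟩ : ∃ p : Fin n × Fin n → ℝ, ∀ q, p q = (((q.1 : ℕ) : ℝ) + ((q.2 : ℕ) : ℝ)) / (2 * n) := ⟨_, fun _ => rfl⟩
  have hlt : ∀ u : Fin n, ((u : ℕ) : ℝ) ≤ n := fun u => by exact_mod_cast u.2.le
  have hge : ∀ u : Fin n, 0 ≤ ((u : ℕ) : ℝ) := fun u => Nat.cast_nonneg _
  have hp01 : ∀ q, 0 ≤ p q ∧ p q ≤ 1 := by
    intro q
    rw [hp]
    constructor
    · have := hge q.1
      have := hge q.2
      positivity
    · rw [div_le_one (by positivity)]
      linarith [hlt q.1, hlt q.2]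
  have hgb : ∀ S : Finset (Fin n), 0 < S.card → ∀ u, |g S u| ≤ n := by
    intro S hS u
    have hS0 : (0 : ℝ) < S.card := by exact_mod_cast hS
    rw [hg]
    have h1 : 0 ≤ (∑ w ∈ S, ((w : ℕ) : ℝ)) / S.card := div_nonneg (sum_nonneg fun w _ => hge w) hS0.le
    have h2 : (∑ w ∈ S, ((w : ℕ) : ℝ)) / S.card ≤ n := by
      rw [div_le_iff₀ hS0]
      refine (sum_le_sum fun w _ => hlt w).trans (le_of_eq ?_)
      rw [sum_const, nsmul_eq_mul, mul_comm]
    rw [abs_le]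
    constructor <;> linarith [hlt u, hge u]
  have hgsum : ∀ S : Finset (Fin n), 0 < S.card → ∑ u ∈ S, g S u = 0 := by
    intro S hS
    have hS0 : (S.card : ℝ) ≠ 0 := by exact_mod_cast hS.ne'
    simp_rw [hg]
    rw [sum_sub_distrib, sum_const, nsmul_eq_mul]
    field_simp
    ring
  -- the expectation
  have hEX2 : ∀ S : Finset (Fin n), 0 < S.card →
      ∑ u ∈ S, ∑ v ∈ S, (if u < v then (g S u + g S v) * p (u, v) else 0) = EX S := by
    intro S hS
    have hS0 : (S.card : ℝ) ≠ 0 := by exact_mod_cast hS.ne'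
    rw [sum_lt_symm S (g S) (fun u v => p (u, v)) (fun u v => by rw [hp, hp]; simp only; ring)]
    obtain ⟨σ, hσ⟩ : ∃ σ, σ = ∑ w ∈ S, ((w : ℕ) : ℝ) := ⟨_, rfl⟩
    have h1 : ∀ u ∈ S, ∑ v ∈ S, (if u ≠ v then g S u * p (u, v) else 0) =
        g S u * ((((S.card : ℝ) - 2) * ((u : ℕ) : ℝ) + σ) / (2 * n)) := by
      intro u hu
      have h2 : ∀ v ∈ S, (if u ≠ v then g S u * p (u, v) else 0) =
          g S u * p (u, v) - (if v = u then g S u * p (u, u) else 0) := by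
        intro v _
        by_cases h : u = v
        · subst h
          rw [if_neg (not_not.2 rfl), if_pos rfl, sub_self]
        · rw [if_pos h, if_neg (Ne.symm h), sub_zero]
      rw [sum_congr rfl h2, sum_sub_distrib, sum_ite_eq' S u, if_pos hu, ← mul_sum, ← mul_sub]
      congr 1
      simp_rw [hp]
      rw [← sum_div, sum_add_distrib, sum_const, nsmul_eq_mul, ← hσ]
      field_simp
      ring
    rw [sum_congr rfl h1, hEX, hV]
    have h3 : ∀ u ∈ S, g S u * ((((S.card : ℝ) - 2) * ((u : ℕ) : ℝ) + σ) / (2 * n)) =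
        ((S.card : ℝ) - 2) / (2 * n) * g S u ^ 2 +
          g S u * (((S.card : ℝ) - 2) * (σ / S.card) / (2 * n) + σ / (2 * n)) := by
      intro u _
      have h4 : ((u : ℕ) : ℝ) = g S u + σ / S.card := by rw [hg, hσ]; ring
      rw [h4]
      field_simp
      ring
    rw [sum_congr rfl h3, sum_add_distrib, ← sum_mul, hgsum S hS, zero_mul, add_zero, mul_sum]
  have hc2 : ∀ S : Finset (Fin n),
      ∑ u ∈ S, ∑ v ∈ S, (if u < v then (g S u + g S v) ^ 2 else 0) ≤ 2 * (S.card : ℝ) * V S - 2 * V S := by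
    intro S
    have h1 : ∑ u ∈ S, ∑ v ∈ S, (if u < v then (g S u + g S v) ^ 2 else 0) ≤
        ∑ u ∈ S, ∑ v ∈ S, (if u < v then (2 * g S u ^ 2 + 2 * g S v ^ 2) * 1 else 0) := by
      refine sum_le_sum fun u _ => sum_le_sum fun v _ => ?_
      split_ifs
      · nlinarith [sq_nonneg (g S u - g S v)]
      · exact le_rfl
    refine h1.trans (le_of_eq ?_)
    rw [sum_lt_symm S (fun u => 2 * g S u ^ 2) (fun _ _ => 1) (fun _ _ => rfl)]
    have h2 : ∀ u ∈ S, ∑ v ∈ S, (if u ≠ v then 2 * g S u ^ 2 * 1 else 0) = (2 * (S.card : ℝ) - 2) * g S u ^ 2 := by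
      intro u hu
      have h3 : ∀ v ∈ S, (if u ≠ v then 2 * g S u ^ 2 * 1 else (0 : ℝ)) =
          2 * g S u ^ 2 - (if v = u then 2 * g S u ^ 2 else 0) := by
        intro v _
        by_cases h : u = v
        · subst h
          rw [if_neg (not_not.2 rfl), if_pos rfl, sub_self]
        · rw [if_pos h, if_neg (Ne.symm h), sub_zero, mul_one]
      rw [sum_congr rfl h3, sum_sub_distrib, sum_ite_eq' S u, if_pos hu, sum_const, nsmul_eq_mul]
      ring
    rw [sum_congr rfl h2, ← mul_sum, ← hV]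
    ring
  have hV0 : ∀ S, 0 ≤ V S := fun S => by rw [hV]; exact sum_nonneg fun u _ => sq_nonneg _
  -- the potential
  obtain ⟨co, hco⟩ : ∃ co : Finset (Fin n) → Fin n × Fin n → ℝ, ∀ S q, co S q =
      if q.1 ∈ S ∧ q.2 ∈ S ∧ q.1 < q.2 then Real.exp (-(lam * (g S q.1 + g S q.2))) - 1 else 0 := ⟨_, fun _ _ => rfl⟩
  obtain ⟨Φ, hΦ⟩ : ∃ Φ : Finset (Fin n) → (Fin n × Fin n → ℝ) → ℝ, ∀ S x, Φ S x =
      Real.exp (lam * (EX S / 2)) * ∏ q, (1 + co S q * x q) := ⟨_, fun _ _ => rfl⟩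
  obtain ⟨F, hF⟩ : ∃ F : Finset (Finset (Fin n)), F = univ.filter fun S => 32768 * (n : ℝ) ^ 2 * Real.log n ≤ (S.card : ℝ) ^ 3 :=
    ⟨_, rfl⟩
  have hcard : ∀ S ∈ F, 32768 * (n : ℝ) ^ 2 * Real.log n ≤ (S.card : ℝ) ^ 3 ∧ 6 ≤ S.card := by
    intro S hS
    rw [hF, mem_filter] at hS
    refine ⟨hS.2, ?_⟩
    by_contra hc
    push Not at hc
    have h1 : (S.card : ℝ) ≤ 5 := by exact_mod_cast Nat.lt_succ_iff.1 hc
    have h2 : (S.card : ℝ) ^ 3 ≤ 5 ^ 3 := pow_le_pow_left₀ (Nat.cast_nonneg _) h1 3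
    have h3 : (0.69 : ℝ) ≤ Real.log n := by
      have h4 : Real.log 2 ≤ Real.log n := Real.log_le_log (by norm_num) hn2
      have := Real.log_two_gt_d9
      linarith
    have h5 : (4 : ℝ) ≤ (n : ℝ) ^ 2 := by nlinarith
    have h6 := hS.2
    nlinarith [mul_le_mul h5 h3 (by norm_num) (by positivity)]
  have hMA : IsMA fun x => ∑ S ∈ F, Φ S x := by
    refine isMA_sum _ _ fun S _ => ?_
    have h1 := (isMA_prod (co S)).smul (Real.exp (lam * (EX S / 2)))
    intro x r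
    obtain ⟨α, β, h2⟩ := h1 x r
    exact ⟨α, β, fun t => by rw [hΦ]; exact h2 t⟩
  obtain ⟨E, -, hE⟩ := hMA.exists_vertex p hp01
  have hco1 : ∀ S q, -1 ≤ co S q := by
    intro S q
    rw [hco]
    split_ifs
    · have := Real.exp_pos (-(lam * (g S q.1 + g S q.2)))
      linarith
    · norm_num
  -- sums over pairs
  have hpair : ∀ (S : Finset (Fin n)) (h : Fin n → Fin n → ℝ),
      ∑ q : Fin n × Fin n, (if q.1 ∈ S ∧ q.2 ∈ S ∧ q.1 < q.2 then h q.1 q.2 else 0) =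
        ∑ u ∈ S, ∑ v ∈ S, (if u < v then h u v else 0) := by
    intro S h
    rw [Fintype.sum_prod_type]
    have h1 : ∀ u, ∑ v, (if u ∈ S ∧ v ∈ S ∧ u < v then h u v else 0) =
        if u ∈ S then ∑ v ∈ S, (if u < v then h u v else 0) else 0 := by
      intro u
      by_cases hu : u ∈ S
      · rw [if_pos hu]
        have h2 : ∀ v, (if u ∈ S ∧ v ∈ S ∧ u < v then h u v else 0) = if v ∈ S then (if u < v then h u v else 0) else 0 := by
          intro v
          by_cases hv : v ∈ S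
          · simp [hu, hv]
          · simp [hv]
        rw [sum_congr rfl fun v _ => h2 v, sum_ite_mem, univ_inter]
      · simp [hu]
    rw [sum_congr rfl fun u _ => h1 u, sum_ite_mem, univ_inter]
  have hval : ∀ S ∈ F, Φ S p ≤ ((n : ℝ) ^ 2)⁻¹ ^ S.card := by
    intro S hS
    obtain ⟨hk3, hk6⟩ := hcard S hS
    obtain ⟨k, hk⟩ : ∃ k : ℝ, k = S.card := ⟨_, rfl⟩
    have hk6' : 6 ≤ k := by rw [hk]; exact_mod_cast hk6
    have hkn : k ≤ n := by
      rw [hk]
      have := card_le_univ S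
      rw [Fintype.card_fin] at this
      exact_mod_cast this
    have hS0 : 0 < S.card := by omega
    rw [hΦ]
    have h2 : ∏ q, (1 + co S q * p q) ≤ Real.exp (∑ q, co S q * p q) :=
      prod_le_exp _ fun q => by nlinarith [hco1 S q, (hp01 q).1, (hp01 q).2]
    have h3 : ∑ q, co S q * p q ≤ ∑ q : Fin n × Fin n, (if q.1 ∈ S ∧ q.2 ∈ S ∧ q.1 < q.2 then
        (-lam * ((g S q.1 + g S q.2) * p (q.1, q.2)) + lam ^ 2 * (g S q.1 + g S q.2) ^ 2) else 0) := by
      refine sum_le_sum fun q _ => ?_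
      rw [hco]
      split_ifs with hq
      · obtain ⟨c, hc⟩ : ∃ c, c = g S q.1 + g S q.2 := ⟨_, rfl⟩
        rw [← hc]
        have hcb : |c| ≤ 2 * n := by
          rw [hc]
          refine (abs_add_le _ _).trans ?_
          linarith [hgb S hS0 q.1, hgb S hS0 q.2]
        have h4 : |-(lam * c)| ≤ 1 := by
          rw [abs_neg, abs_mul, abs_of_pos hlam0, hlam, one_div_mul_eq_div, div_le_one (by positivity)]
          linarith
        have h5 := exp_sub_one_le' h4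
        have h6 : (Real.exp (-(lam * c)) - 1) * p q ≤ (-(lam * c) + (-(lam * c)) ^ 2) * p q :=
          mul_le_mul_of_nonneg_right h5 (hp01 q).1
        have h7 : (-(lam * c)) ^ 2 * p q ≤ (-(lam * c)) ^ 2 * 1 := mul_le_mul_of_nonneg_left (hp01 q).2 (sq_nonneg _)
        have h8 : p (q.1, q.2) = p q := rfl
        rw [h8]
        nlinarith
      · rw [zero_mul]
    rw [hpair S (fun u v => -lam * ((g S u + g S v) * p (u, v)) + lam ^ 2 * (g S u + g S v) ^ 2)] at h3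
    have h4 : ∑ u ∈ S, ∑ v ∈ S, (if u < v then (-lam * ((g S u + g S v) * p (u, v)) + lam ^ 2 * (g S u + g S v) ^ 2) else 0) =
        -lam * EX S + lam ^ 2 * ∑ u ∈ S, ∑ v ∈ S, (if u < v then (g S u + g S v) ^ 2 else 0) := by
      rw [← hEX2 S hS0, mul_sum, mul_sum, ← sum_add_distrib]
      refine sum_congr rfl fun u _ => ?_
      rw [mul_sum, mul_sum, ← sum_add_distrib]
      refine sum_congr rfl fun v _ => ?_
      split_ifs
      · rfl
      · ring
    rw [h4] at h3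
    have h5 := mul_le_mul_of_nonneg_left (hc2 S) (sq_nonneg lam)
    have hVk : k ^ 3 / 64 ≤ V S := by
      rw [hV, hk]
      have := var_ge S ((∑ w ∈ S, ((w : ℕ) : ℝ)) / S.card) (by omega)
      simp_rw [hg]
      exact this
    have h6 : lam * (EX S / 2) + ∑ q, co S q * p q ≤ -(2 * k * Real.log n) := by
      have h7 : lam * (EX S / 2) + ∑ q, co S q * p q ≤ -(V S * (k - 3) / (128 * n ^ 2)) := by
        have h8 : lam * (EX S / 2) + (-lam * EX S + lam ^ 2 * (2 * k * V S - 2 * V S)) = -(V S * (k - 3) / (128 * n ^ 2)) := by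
          rw [hEX, hlam, hk]
          field_simp
          ring
        rw [← h8]
        rw [← hk] at h5
        linarith
      have h9 : 2 * k * Real.log n ≤ V S * (k - 3) / (128 * n ^ 2) := by
        rw [le_div_iff₀ (by positivity)]
        have h10 : 32768 * (n : ℝ) ^ 2 * Real.log n ≤ k ^ 3 := by rw [hk]; exact hk3
        have h11 : k ^ 3 / 64 * (k - 3) ≤ V S * (k - 3) := mul_le_mul_of_nonneg_right hVk (by linarith)
        have h12 : k ^ 3 / 64 * (k / 2) ≤ k ^ 3 / 64 * (k - 3) := mul_le_mul_of_nonneg_left (by linarith) (by positivity)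
        have h13 : 32768 * (n : ℝ) ^ 2 * Real.log n * k ≤ k ^ 3 * k := mul_le_mul_of_nonneg_right h10 (by linarith)
        nlinarith
      linarith
    calc Real.exp (lam * (EX S / 2)) * ∏ q, (1 + co S q * p q)
        ≤ Real.exp (lam * (EX S / 2)) * Real.exp (∑ q, co S q * p q) :=
          mul_le_mul_of_nonneg_left h2 (Real.exp_pos _).le
      _ = Real.exp (lam * (EX S / 2) + ∑ q, co S q * p q) := (Real.exp_add _ _).symm
      _ ≤ Real.exp (-(2 * k * Real.log n)) := Real.exp_le_exp.2 h6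
      _ = ((n : ℝ) ^ 2)⁻¹ ^ S.card := by
          rw [inv_pow, ← pow_mul, Real.exp_neg]
          congr 1
          have h14 : 2 * k * Real.log n = ((2 * S.card : ℕ) : ℝ) * Real.log n := by
            push_cast
            rw [hk]
          rw [h14, Real.exp_nat_mul, Real.exp_log hn0]
  have htot : ∑ S ∈ F, Φ S p < 1 := by
    have h1 : ∑ S ∈ F, Φ S p ≤ ∑ S ∈ F, ((n : ℝ) ^ 2)⁻¹ ^ S.card := sum_le_sum hval
    have h2 : ∑ S ∈ F, ((n : ℝ) ^ 2)⁻¹ ^ S.card + 1 ≤ ∑ S ∈ (univ : Finset (Fin n)).powerset, ((n : ℝ) ^ 2)⁻¹ ^ S.card := by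
      have h3 : insert ∅ F ⊆ (univ : Finset (Fin n)).powerset := by
        intro S _
        rw [mem_powerset]
        exact subset_univ S
      have h4 : (∅ : Finset (Fin n)) ∉ F := by
        intro hc
        have := (hcard ∅ hc).2
        rw [card_empty] at this
        omega
      have h5 := sum_le_sum_of_subset_of_nonneg (f := fun S : Finset (Fin n) => ((n : ℝ) ^ 2)⁻¹ ^ S.card) h3
        (fun S _ _ => by positivity)
      rw [sum_insert h4, card_empty, pow_zero] at h5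
      linarith
    have h3 : ∑ S ∈ (univ : Finset (Fin n)).powerset, ((n : ℝ) ^ 2)⁻¹ ^ S.card = (((n : ℝ) ^ 2)⁻¹ + 1) ^ n := by
      have h4 := sum_pow_mul_eq_add_pow (((n : ℝ) ^ 2)⁻¹) 1 (univ : Finset (Fin n))
      rw [card_univ, Fintype.card_fin] at h4
      rw [← h4]
      refine sum_congr rfl fun S _ => ?_
      rw [one_pow, mul_one]
    have h4 : (((n : ℝ) ^ 2)⁻¹ + 1) ^ n < 2 := by
      have h5 : ((n : ℝ) ^ 2)⁻¹ + 1 ≤ Real.exp (((n : ℝ) ^ 2)⁻¹) := Real.add_one_le_exp _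
      have h6 : (((n : ℝ) ^ 2)⁻¹ + 1) ^ n ≤ Real.exp (((n : ℝ) ^ 2)⁻¹) ^ n := pow_le_pow_left₀ (by positivity) h5 n
      have h7 : Real.exp (((n : ℝ) ^ 2)⁻¹) ^ n = Real.exp (1 / n) := by
        rw [← Real.exp_nat_mul]
        congr 1
        field_simp
      have h8 : Real.exp (1 / (n : ℝ)) ≤ Real.exp (1 / 2) :=
        Real.exp_le_exp.2 (div_le_div_of_nonneg_left (by norm_num) (by norm_num) hn2)
      have h9 : Real.exp (1 / 2 : ℝ) < 2 := by
        have h10 : Real.exp (1 / 2 : ℝ) ^ 2 < 2 ^ 2 := by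
          rw [← Real.exp_nat_mul]
          have := Real.exp_one_lt_d9
          norm_num
          linarith
        exact lt_of_pow_lt_pow_left₀ 2 (by norm_num) h10
      rw [h7] at h6
      linarith
    linarith
  -- the graph
  have hpos : ∀ S, 0 ≤ Φ S (fun q => if q ∈ E then 1 else 0) := by
    intro S
    rw [hΦ]
    refine mul_nonneg (Real.exp_pos _).le (prod_nonneg fun q _ => ?_)
    have := hco1 S q
    split_ifs <;> linarith
  have hvert : ∀ S ∈ F, Φ S (fun q => if q ∈ E then 1 else 0) < 1 := by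
    intro S hS
    have h1 := single_le_sum (f := fun S => Φ S (fun q => if q ∈ E then 1 else 0)) (fun S _ => hpos S) hS
    exact lt_of_le_of_lt (h1.trans hE) htot
  obtain ⟨A, hA⟩ : ∃ A : Fin n → Fin n → ℝ, ∀ u v, A u v =
      if (u < v ∧ (u, v) ∈ E) ∨ (v < u ∧ (v, u) ∈ E) then 1 else 0 := ⟨_, fun _ _ => rfl⟩
  obtain ⟨G, hG⟩ : ∃ G : SimpleGraph (Fin n), ∀ u v, G.Adj u v ↔ ((u < v ∧ (u, v) ∈ E) ∨ (v < u ∧ (v, u) ∈ E)) :=
    ⟨{ Adj := fun u v => (u < v ∧ (u, v) ∈ E) ∨ (v < u ∧ (v, u) ∈ E)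
       symm := ⟨fun u v h => Or.symm h⟩
       loopless := ⟨fun u h => by rcases h with h | h <;> exact lt_irrefl _ h.1⟩ }, fun _ _ => Iff.rfl⟩
  refine ⟨G, fun S hS => ?_⟩
  have hSF : S ∈ F := by
    rw [hF, mem_filter]
    exact ⟨mem_univ _, hS⟩
  obtain ⟨hk3, hk6⟩ := hcard S hSF
  obtain ⟨k, hk⟩ : ∃ k : ℝ, k = S.card := ⟨_, rfl⟩
  have hk6' : 6 ≤ k := by rw [hk]; exact_mod_cast hk6
  have hS0 : 0 < S.card := by omega
  have hdeg : ∀ u, ((S.filter fun w => G.Adj u w).card : ℝ) = ∑ w ∈ S, A u w := by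
    intro u
    simp_rw [hA, ← hG]
    rw [sum_ite, sum_const_zero, add_zero, sum_const, nsmul_eq_mul, mul_one]
  have hX : EX S / 2 < ∑ u ∈ S, g S u * ∑ w ∈ S, A u w := by
    have h1 := hvert S hSF
    rw [hΦ] at h1
    have h2 : ∏ q, (1 + co S q * (if q ∈ E then (1 : ℝ) else 0)) =
        Real.exp (∑ q : Fin n × Fin n, (if q.1 ∈ S ∧ q.2 ∈ S ∧ q.1 < q.2 then
          -(lam * ((g S q.1 + g S q.2) * (if (q.1, q.2) ∈ E then 1 else 0))) else 0)) := by
      rw [Real.exp_sum]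
      refine prod_congr rfl fun q _ => ?_
      have h3 : (q.1, q.2) = q := rfl
      rw [h3, hco]
      by_cases hq : q.1 ∈ S ∧ q.2 ∈ S ∧ q.1 < q.2
      · rw [if_pos hq, if_pos hq]
        by_cases hqE : q ∈ E
        · rw [if_pos hqE, mul_one, mul_one]
          ring
        · rw [if_neg hqE, mul_zero, mul_zero, mul_zero, neg_zero, Real.exp_zero, add_zero]
      · rw [if_neg hq, if_neg hq, zero_mul, add_zero, Real.exp_zero]
    rw [h2, ← Real.exp_add, Real.exp_lt_one_iff,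
      hpair S (fun u v => -(lam * ((g S u + g S v) * (if (u, v) ∈ E then 1 else 0))))] at h1
    have h3 : ∑ u ∈ S, ∑ v ∈ S, (if u < v then -(lam * ((g S u + g S v) * (if (u, v) ∈ E then 1 else 0))) else 0) =
        -(lam * ∑ u ∈ S, ∑ v ∈ S, (if u < v then (g S u + g S v) * A u v else 0)) := by
      rw [mul_sum, ← sum_neg_distrib]
      refine sum_congr rfl fun u _ => ?_
      rw [mul_sum, ← sum_neg_distrib]
      refine sum_congr rfl fun v _ => ?_
      by_cases h : u < v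
      · rw [if_pos h, if_pos h, hA]
        have h4 : ((u < v ∧ (u, v) ∈ E) ∨ (v < u ∧ (v, u) ∈ E)) ↔ (u, v) ∈ E :=
          ⟨fun h5 => h5.elim (fun h6 => h6.2) fun h6 => absurd h6.1 h.not_gt, fun h5 => Or.inl ⟨h, h5⟩⟩
        rw [if_congr h4 rfl rfl]
      · rw [if_neg h, if_neg h, mul_zero, neg_zero]
    rw [h3, sum_lt_symm S (g S) A (fun u v => by rw [hA, hA]; exact if_congr or_comm rfl rfl)] at h1
    have h4 : ∑ u ∈ S, ∑ v ∈ S, (if u ≠ v then g S u * A u v else 0) = ∑ u ∈ S, g S u * ∑ w ∈ S, A u w := by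
      refine sum_congr rfl fun u _ => ?_
      rw [mul_sum]
      refine sum_congr rfl fun v _ => ?_
      by_cases h : u = v
      · subst h
        rw [if_neg (not_not.2 rfl), hA, if_neg, mul_zero]
        rintro (h5 | h5) <;> exact lt_irrefl _ h5.1
      · rw [if_pos h]
    rw [h4] at h1
    have h5 : lam * (EX S / 2) < lam * ∑ u ∈ S, g S u * ∑ w ∈ S, A u w := by linarith
    exact lt_of_mul_lt_mul_left h5 hlam0.le
  obtain ⟨v, hv, hvmin⟩ := exists_min_image S (fun u => ∑ w ∈ S, A u w) (card_pos.1 hS0)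
  by_contra hcon
  push Not at hcon
  obtain ⟨D, hD⟩ : ∃ D, D = k ^ 2 / (64 * n) := ⟨_, rfl⟩
  have hD0 : 0 ≤ D := by rw [hD]; positivity
  have hdiff : ∀ u ∈ S, ∑ w ∈ S, A u w - ∑ w ∈ S, A v w ≤ D := by
    intro u hu
    have h1 := hcon u hu v hv
    rw [hdeg, hdeg] at h1
    rw [hD, hk]
    linarith
  have hub : ∑ u ∈ S, g S u * ∑ w ∈ S, A u w ≤ D * ∑ u ∈ S, |g S u| := by
    have h1 : ∑ u ∈ S, g S u * ∑ w ∈ S, A u w = ∑ u ∈ S, g S u * (∑ w ∈ S, A u w - ∑ w ∈ S, A v w) := by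
      simp_rw [mul_sub]
      rw [sum_sub_distrib, ← sum_mul, hgsum S hS0, zero_mul, sub_zero]
    rw [h1, mul_sum]
    refine sum_le_sum fun u hu => ?_
    have h2 : 0 ≤ ∑ w ∈ S, A u w - ∑ w ∈ S, A v w := sub_nonneg.2 (hvmin u hu)
    calc g S u * (∑ w ∈ S, A u w - ∑ w ∈ S, A v w) ≤ |g S u| * (∑ w ∈ S, A u w - ∑ w ∈ S, A v w) :=
          mul_le_mul_of_nonneg_right (le_abs_self _) h2
      _ ≤ |g S u| * D := mul_le_mul_of_nonneg_left (hdiff u hu) (abs_nonneg _)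
      _ = D * |g S u| := mul_comm _ _
  obtain ⟨Y, hY⟩ : ∃ Y, Y = ∑ u ∈ S, |g S u| := ⟨_, rfl⟩
  rw [← hY] at hub
  have hY0 : 0 ≤ Y := by rw [hY]; exact sum_nonneg fun u _ => abs_nonneg _
  have hY2 : Y ^ 2 ≤ k * V S := by
    rw [hY, hk, hV]
    have h1 := sq_sum_le_card_mul_sum_sq (s := S) (f := fun u => |g S u|)
    simp only [sq_abs] at h1
    exact h1
  have hVk : k ^ 3 / 64 ≤ V S := by
    rw [hV, hk]
    have := var_ge S ((∑ w ∈ S, ((w : ℕ) : ℝ)) / S.card) (by omega)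
    simp_rw [hg]
    exact this
  have hVpos : 0 < V S := lt_of_lt_of_le (by positivity) hVk
  -- (k - 2) V / (4 n) < D Y
  have h1 : (k - 2) * V S / (4 * n) < D * Y := by
    have h2 : EX S / 2 = (k - 2) * V S / (4 * n) := by
      rw [hEX, hk]
      field_simp
      ring
    rw [← h2]
    linarith
  have h2 : (k - 2) * V S * 16 < k ^ 2 * Y := by
    rw [hD, div_mul_eq_mul_div, div_lt_div_iff₀ (by positivity) (by positivity)] at h1
    have h3 : (k - 2) * V S * (64 * n) = ((k - 2) * V S * 16) * (4 * n) := by ring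
    rw [h3] at h1
    exact lt_of_mul_lt_mul_right h1 (by positivity)
  have h3 : (k / 2) * V S * 16 ≤ (k - 2) * V S * 16 := by
    have : (k / 2) * V S ≤ (k - 2) * V S := mul_le_mul_of_nonneg_right (by linarith) hVpos.le
    linarith
  have h4 : 8 * V S < k * Y := by
    have h5 : k * (8 * V S) < k * (k * Y) := by nlinarith
    exact lt_of_mul_lt_mul_left h5 (by linarith)
  have h5 : (8 * V S) ^ 2 < (k * Y) ^ 2 := pow_lt_pow_left₀ h4 (by positivity) (by norm_num)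
  have h6 : (k * Y) ^ 2 ≤ k ^ 2 * (k * V S) := by
    rw [mul_pow]
    exact mul_le_mul_of_nonneg_left hY2 (by positivity)
  have h7 : 64 * V S * V S < k ^ 3 * V S := by nlinarith
  have h8 : 64 * V S < k ^ 3 := lt_of_mul_lt_mul_right h7 hVpos.le
  linarith

end Swp
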