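import Pool.Agent.Swp.Energy

/-!
# Swp.Approx: approximate saddle points
-/

namespace Swp

open Finset

variable {ι : Type*} [Fintype ι]

/-- The path of matrices. -/
def MM (A B : ι → ι → ℝ) (t : ℝ) : ι → ι → ℝ := fun p q => A p q + t * B p q

theorem qf_MM (A B : ι → ι → ℝ) (s t : ℝ) (f : ι → ℝ) : qf (MM A B s) f - qf (MM A B t) f = (s - t) * qf B f := by
  unfold qf mv MM
  rw [← sum_sub_distrib, mul_sum]
  refine sum_congr rfl fun p _ => ?_
  rw [← mul_sub, ← sum_sub_distrib, mul_left_comm, mul_sum (a := s - t)]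
  congr 1
  exact sum_congr rfl fun q _ => by ring

theorem mv_MM (A B : ι → ι → ℝ) (s t : ℝ) (f : ι → ℝ) (p : ι) :
    mv (MM A B s) f p - mv (MM A B t) f p = (s - t) * mv B f p := by
  unfold mv MM
  rw [← sum_sub_distrib, mul_sum]
  exact sum_congr rfl fun q _ => by ring

theorem exists_bound (A : ι → ι → ℝ) : ∃ L : ℝ, 0 ≤ L ∧ ∀ p q, |A p q| ≤ L := by
  refine ⟨∑ p, ∑ q, |A p q|, sum_nonneg fun p _ => sum_nonneg fun q _ => abs_nonneg _, fun p q => ?_⟩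
  refine (single_le_sum (f := fun q => |A p q|) (fun q _ => abs_nonneg _) (mem_univ q)).trans ?_
  exact single_le_sum (f := fun p => ∑ q, |A p q|) (fun p _ => sum_nonneg fun q _ => abs_nonneg _) (mem_univ p)

theorem approx (A B : ι → ι → ℝ) (hA : ∀ p q, A p q = A q p) (hB : ∀ p q, B p q = B q p)
    {φ ψ : ℝ → ℝ} {l : ℝ} (hl : 0 < l) {Cφ Cψ : ℝ}
    (hCφ : ∀ x, 0 ≤ x → x ≤ l → |φ x| ≤ Cφ) (hCψ : ∀ x, 0 ≤ x → x ≤ l → |ψ x| ≤ Cψ)
    (hφψ : ∀ x y, 0 ≤ x → x ≤ y → y ≤ l → 0 ≤ φ x - φ y ∧ φ x - φ y ≤ (y - x) * ψ x)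
    {l1 l2 D : ℝ} (hD : 0 < D)
    (h : ∀ a b : ι → ℝ, (∀ p, 0 ≤ a p ∧ a p ≤ 1) → (∀ p, 0 ≤ b p ∧ b p ≤ 1) →
      D ≤ QQ (MM A B (φ l)) l1 l2 1 b - QQ (MM A B (φ 0)) l1 l2 a 0) :
    ∃ τ : ℝ, 0 < τ ∧ ∀ δ : ℝ, 0 < δ → ∃ x, 0 ≤ x ∧ x ≤ l ∧ ∃ a b : ι → ℝ,
      (∀ p, 0 ≤ a p ∧ a p ≤ 1) ∧ (∀ p, 0 ≤ b p ∧ b p ≤ 1) ∧
      (∀ p, |a p - clip (a p + τ * (l1 - mv (MM A B (φ x)) (a - b) p))| ≤ δ) ∧
      (∀ p, |b p - clip (b p + τ * (l2 - mv (MM A B (φ x)) (a - b) p))| ≤ δ) ∧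
      D ≤ l * ψ x * (qf B (a - b) / 2) + δ := by
  obtain ⟨LA, hLA0, hLA⟩ := exists_bound A
  obtain ⟨LB, hLB0, hLB⟩ := exists_bound B
  have hCφ0 : 0 ≤ Cφ := (abs_nonneg _).trans (hCφ 0 le_rfl hl.le)
  have hCψ0 : 0 ≤ Cψ := (abs_nonneg _).trans (hCψ 0 le_rfl hl.le)
  obtain ⟨N, hN⟩ : ∃ N : ℝ, N = (Fintype.card ι : ℝ) := ⟨_, rfl⟩
  have hN0 : 0 ≤ N := by rw [hN]; positivity
  obtain ⟨L, hLdef⟩ : ∃ L, L = LA + Cφ * LB := ⟨_, rfl⟩
  have hL0 : 0 ≤ L := by rw [hLdef]; positivity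
  obtain ⟨τ, hτdef⟩ : ∃ τ, τ = 1 / (2 * L * N + 1) := ⟨_, rfl⟩
  have hτ : 0 < τ := by rw [hτdef]; positivity
  have hτL : 2 * L * N * τ ≤ 1 := by
    rw [hτdef, mul_one_div, div_le_one (by positivity)]
    linarith
  have hMb : ∀ x, 0 ≤ x → x ≤ l → ∀ p q, |MM A B (φ x) p q| ≤ L := by
    intro x h0 h1 p q
    unfold MM
    refine (abs_add_le _ _).trans ?_
    rw [abs_mul, hLdef]
    exact add_le_add (hLA p q) (mul_le_mul (hCφ x h0 h1) (hLB p q) (abs_nonneg _) hCφ0)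
  have hMs : ∀ t, ∀ p q, MM A B t p q = MM A B t q p := by
    intro t p q
    unfold MM
    rw [hA p q, hB p q]
  have hψ0 : ∀ x, 0 ≤ x → x < l → 0 ≤ ψ x := by
    intro x h0 h1
    have h2 := hφψ x l h0 h1.le le_rfl
    have h3 : 0 ≤ (l - x) * ψ x := h2.1.trans h2.2
    by_contra hc
    push Not at hc
    nlinarith
  refine ⟨τ, hτ, fun δ hδ => ?_⟩
  -- constants
  obtain ⟨C1, hC1⟩ : ∃ C1, C1 = τ * (LB * Cψ * l) ^ 2 * N ^ 3 := ⟨_, rfl⟩
  have hC10 : 0 ≤ C1 := by rw [hC1]; positivity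
  obtain ⟨Ce, hCe⟩ : ∃ Ce, Ce = LB * N * N / 2 := ⟨_, rfl⟩
  have hCe0 : 0 ≤ Ce := by rw [hCe]; positivity
  obtain ⟨C2, hC2⟩ : ∃ C2, C2 = 2 * τ * (l * Cψ * Ce + C1) := ⟨_, rfl⟩
  have hC20 : 0 ≤ C2 := by rw [hC2]; positivity
  obtain ⟨C3, hC3⟩ : ∃ C3, C3 = 1 + τ * L * N * 2 := ⟨_, rfl⟩
  have hC30 : 1 ≤ C3 := by
    rw [hC3]
    have : 0 ≤ τ * L * N * 2 := by positivity
    linarith
  obtain ⟨C4, hC4⟩ : ∃ C4, C4 = τ * (LB * Cψ * l) * N := ⟨_, rfl⟩
  have hC40 : 0 ≤ C4 := by rw [hC4]; positivity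
  obtain ⟨n, hn⟩ := exists_nat_gt (C1 / δ + C1 / D + 4 * C2 * C3 ^ 2 / δ ^ 2 + 2 * C4 / δ + 1)
  have hd1 : 0 ≤ C1 / δ := by positivity
  have hd2 : 0 ≤ C1 / D := by positivity
  have hd3 : 0 ≤ 4 * C2 * C3 ^ 2 / δ ^ 2 := by positivity
  have hd4 : 0 ≤ 2 * C4 / δ := by positivity
  have hn1 : (1 : ℝ) < n := by linarith
  have hn0 : (0 : ℝ) < n := by linarith
  have hnN : 0 < n := by exact_mod_cast hn0
  have q1 : C1 / n ≤ δ := by
    rw [div_le_iff₀ hn0]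
    have : C1 / δ < n := by linarith
    rw [div_lt_iff₀ hδ] at this
    linarith
  have q2 : C1 / n < D := by
    rw [div_lt_iff₀ hn0]
    have : C1 / D < n := by linarith
    rw [div_lt_iff₀ hD] at this
    linarith
  have q3 : C2 / n ≤ (δ / (2 * C3)) ^ 2 := by
    rw [div_le_iff₀ hn0, div_pow, div_mul_eq_mul_div, le_div_iff₀ (by positivity)]
    have : 4 * C2 * C3 ^ 2 / δ ^ 2 < n := by linarith
    rw [div_lt_iff₀ (by positivity)] at this
    nlinarith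
  have q4 : C4 / n ≤ δ / 2 := by
    rw [div_le_iff₀ hn0]
    have : 2 * C4 / δ < n := by linarith
    rw [div_lt_iff₀ hδ] at this
    linarith
  -- the trajectory
  obtain ⟨X, hX⟩ : ∃ X : ℕ → ℝ, ∀ k, X k = k * l / n := ⟨_, fun _ => rfl⟩
  have hX0 : ∀ k, 0 ≤ X k := fun k => by rw [hX]; positivity
  have hXl : ∀ k, k ≤ n → X k ≤ l := by
    intro k hk
    have hk' : (k : ℝ) ≤ n := by exact_mod_cast hk
    rw [hX, div_le_iff₀ hn0, mul_comm l]
    exact mul_le_mul_of_nonneg_right hk' hl.le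
  have hXs : ∀ k, X (k + 1) - X k = l / n := by
    intro k
    rw [hX, hX]
    push_cast
    field_simp
    ring
  have hXle : ∀ k, X k ≤ X (k + 1) := by
    intro k
    have h1 := hXs k
    have h2 : 0 < l / n := by positivity
    linarith
  have hXlt : ∀ k, k < n → X k < l := by
    intro k hk
    have h1 := hXs k
    have h2 := hXl (k + 1) hk
    have h3 : 0 < l / n := by positivity
    linarith
  obtain ⟨a, b, ha, hb, hb0, han, hak, hbk⟩ := exists_traj (fun k => MM A B (φ (X k))) n τ l1 l2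
  obtain ⟨η, hη⟩ : ∃ η, η = LB * Cψ * l / n := ⟨_, rfl⟩
  have hη0 : 0 ≤ η := by rw [hη]; positivity
  have hηb : ∀ k < n, ∀ p q, |MM A B (φ (X (k + 1))) p q - MM A B (φ (X k)) p q| ≤ η := by
    intro k hk p q
    have h1 : MM A B (φ (X (k + 1))) p q - MM A B (φ (X k)) p q = -((φ (X k) - φ (X (k + 1))) * B p q) := by
      unfold MM
      ring
    have h2 := hφψ (X k) (X (k + 1)) (hX0 k) (hXle k) (hXl _ hk)
    rw [h1, abs_neg, abs_mul, abs_of_nonneg h2.1, hη]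
    have h3 : φ (X k) - φ (X (k + 1)) ≤ l / n * Cψ := by
      refine h2.2.trans ?_
      rw [hXs]
      exact mul_le_mul_of_nonneg_left ((le_abs_self _).trans (hCψ _ (hX0 k) (hXl k hk.le))) (by positivity)
    have h4 : LB * Cψ * l / n = (l / n * Cψ) * LB := by ring
    rw [h4]
    exact mul_le_mul h3 (hLB p q) (abs_nonneg _) (by positivity)
  obtain ⟨S, hS⟩ : ∃ S : ℕ → ℝ, ∀ k, S k = ∑ p, ((a (k + 1) p - a k p) ^ 2 + (b (k + 1) p - b k p) ^ 2) := ⟨_, fun _ => rfl⟩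
  have hS0 : ∀ k, 0 ≤ S k := fun k => by
    rw [hS]
    exact sum_nonneg fun p _ => by positivity
  obtain ⟨E, hE⟩ : ∃ E : ℕ → ℝ, ∀ k, E k = qf B (a (k + 1) - b (k + 1)) / 2 := ⟨_, fun _ => rfl⟩
  have hstep : ∀ k < n, QQ (MM A B (φ (X (k + 1)))) l1 l2 (a (k + 1)) (b (k + 1)) -
      QQ (MM A B (φ (X k))) l1 l2 (a k) (b k) ≤
      (φ (X k) - φ (X (k + 1))) * E k - 1 / (2 * τ) * S k + τ * η ^ 2 * N ^ 3 := by
    intro k hk
    have h1 := energy_step (M := MM A B (φ (X k))) (M' := MM A B (φ (X (k + 1)))) (hMs _)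
      (hMb _ (hX0 k) (hXl k hk.le)) (hηb k hk) hτ (by rw [← hN]; exact hτL)
      (ha k) (hb k) (ha (k + 1)) (hb (k + 1)) (hak k hk) (hbk k hk)
    rw [qf_MM, ← hN] at h1
    rw [hE, hS]
    refine h1.trans (le_of_eq ?_)
    ring
  -- averaging
  have hsum : D ≤ ∑ k ∈ range n, ((φ (X k) - φ (X (k + 1))) * E k - 1 / (2 * τ) * S k + τ * η ^ 2 * N ^ 3) := by
    have h1 := h (a 0) (b n) (ha 0) (hb n)
    have h2 := sum_range_sub (fun k => QQ (MM A B (φ (X k))) l1 l2 (a k) (b k)) n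
    have h3 : X n = l := by
      rw [hX]
      field_simp
    have h4 : X 0 = 0 := by rw [hX]; simp
    have h5 : a n = 1 := funext han
    have h6 : b 0 = 0 := funext hb0
    rw [h3, h4, h5, h6] at h2
    rw [← h2] at h1
    exact h1.trans (sum_le_sum fun k hk => hstep k (mem_range.1 hk))
  obtain ⟨k, hk, hkD⟩ : ∃ k ∈ range n, D / n ≤
      (φ (X k) - φ (X (k + 1))) * E k - 1 / (2 * τ) * S k + τ * η ^ 2 * N ^ 3 := by
    by_contra hc
    push Not at hc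
    have h1 : ∑ k ∈ range n, ((φ (X k) - φ (X (k + 1))) * E k - 1 / (2 * τ) * S k + τ * η ^ 2 * N ^ 3) <
        ∑ _k ∈ range n, D / n := sum_lt_sum_of_nonempty (nonempty_range_iff.2 hnN.ne') hc
    rw [sum_const, card_range, nsmul_eq_mul, mul_div_cancel₀ _ hn0.ne'] at h1
    linarith
  have hkn := mem_range.1 hk
  have hφk := hφψ (X k) (X (k + 1)) (hX0 k) (hXle k) (hXl _ hkn)
  rw [hXs] at hφk
  have hψk := hψ0 (X k) (hX0 k) (hXlt k hkn)
  have hff : ∀ k p, |(a k - b k) p| ≤ 1 := by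
    intro k p
    rw [Pi.sub_apply, abs_le]
    constructor <;> linarith [(ha k p).1, (ha k p).2, (hb k p).1, (hb k p).2]
  have hEk : |E k| ≤ Ce := by
    have h1 := abs_qf_le hLB (a (k + 1) - b (k + 1))
    have h2 : ∑ p, (a (k + 1) - b (k + 1)) p ^ 2 ≤ N := by
      refine (sum_le_sum fun p _ => (sq_le_one_iff_abs_le_one _).2 (hff (k + 1) p)).trans (le_of_eq ?_)
      rw [sum_const, card_univ, nsmul_eq_mul, mul_one, hN]
    rw [hE, abs_div, abs_two, hCe]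
    rw [← hN] at h1
    have h3 := mul_le_mul_of_nonneg_left h2 (show 0 ≤ LB * N by positivity)
    linarith
  have hη3 : τ * η ^ 2 * N ^ 3 = C1 / n / n := by
    rw [hη, hC1]
    field_simp
  rw [hη3] at hkD
  -- `S k` is small
  have hSk : S k ≤ C2 / n := by
    have h1 : (φ (X k) - φ (X (k + 1))) * E k ≤ l / n * Cψ * Ce := by
      have h2 : φ (X k) - φ (X (k + 1)) ≤ l / n * Cψ := by
        refine hφk.2.trans ?_
        exact mul_le_mul_of_nonneg_left ((le_abs_self _).trans (hCψ _ (hX0 k) (hXl k hkn.le))) (by positivity)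
      calc (φ (X k) - φ (X (k + 1))) * E k ≤ (φ (X k) - φ (X (k + 1))) * Ce :=
            mul_le_mul_of_nonneg_left ((le_abs_self _).trans hEk) hφk.1
        _ ≤ _ := mul_le_mul_of_nonneg_right h2 hCe0
    have h3 : C1 / n / n ≤ C1 / n := div_le_self (by positivity) hn1.le
    have h4 : 0 ≤ D / n := by positivity
    have h5 : 1 / (2 * τ) * S k ≤ l / n * Cψ * Ce + C1 / n := by linarith
    have h6 : l / n * Cψ * Ce + C1 / n = (l * Cψ * Ce + C1) / n := by ring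
    rw [h6, one_div, inv_mul_le_iff₀ (by positivity)] at h5
    rw [hC2]
    refine h5.trans (le_of_eq ?_)
    ring
  obtain ⟨σ, hσ⟩ : ∃ σ, σ = δ / (2 * C3) := ⟨_, rfl⟩
  have hσ0 : 0 < σ := by rw [hσ]; positivity
  have hSσ : S k ≤ σ ^ 2 := by rw [hσ]; exact hSk.trans q3
  have hΔa : ∀ p, |a (k + 1) p - a k p| ≤ σ := by
    intro p
    apply abs_le_of_sq_le_sq _ hσ0.le
    refine le_trans ?_ hSσ
    have h1 := single_le_sum (f := fun p => ((a (k + 1) p - a k p) ^ 2 + (b (k + 1) p - b k p) ^ 2))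
      (fun p _ => by positivity) (mem_univ p)
    have h2 : (a (k + 1) p - a k p) ^ 2 + (b (k + 1) p - b k p) ^ 2 ≤ S k := by
      rw [hS]; exact h1
    nlinarith [sq_nonneg (b (k + 1) p - b k p)]
  have hΔb : ∀ p, |b (k + 1) p - b k p| ≤ σ := by
    intro p
    apply abs_le_of_sq_le_sq _ hσ0.le
    refine le_trans ?_ hSσ
    have h1 := single_le_sum (f := fun p => ((a (k + 1) p - a k p) ^ 2 + (b (k + 1) p - b k p) ^ 2))
      (fun p _ => by positivity) (mem_univ p)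
    have h2 : (a (k + 1) p - a k p) ^ 2 + (b (k + 1) p - b k p) ^ 2 ≤ S k := by
      rw [hS]; exact h1
    nlinarith [sq_nonneg (a (k + 1) p - a k p)]
  have hσC : C3 * σ = δ / 2 := by
    rw [hσ]
    field_simp
  have hσδ : σ ≤ δ / 2 := by nlinarith
  refine ⟨X k, hX0 k, hXl k hkn.le, a (k + 1), b (k + 1), ha _, hb _, ?_, ?_, ?_⟩
  · intro p
    have h1 := hak k hkn p
    have h2 : a (k + 1) p - clip (a (k + 1) p + τ * (l1 - mv (MM A B (φ (X k))) (a (k + 1) - b (k + 1)) p)) =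
        (a (k + 1) p - a k p) +
        (clip (a (k + 1) p + τ * (l1 - mv (MM A B (φ (X (k + 1)))) (a (k + 1) - b (k + 1)) p)) -
        clip (a (k + 1) p + τ * (l1 - mv (MM A B (φ (X k))) (a (k + 1) - b (k + 1)) p))) := by
      rw [← h1]
      ring
    rw [h2]
    refine (abs_add_le _ _).trans ?_
    have h3 := clip_lip (a (k + 1) p + τ * (l1 - mv (MM A B (φ (X (k + 1)))) (a (k + 1) - b (k + 1)) p))
      (a (k + 1) p + τ * (l1 - mv (MM A B (φ (X k))) (a (k + 1) - b (k + 1)) p))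
    have h4 : a (k + 1) p + τ * (l1 - mv (MM A B (φ (X (k + 1)))) (a (k + 1) - b (k + 1)) p) -
        (a (k + 1) p + τ * (l1 - mv (MM A B (φ (X k))) (a (k + 1) - b (k + 1)) p)) =
        τ * ((φ (X k) - φ (X (k + 1))) * mv B (a (k + 1) - b (k + 1)) p) := by
      rw [← mv_MM A]
      ring
    rw [h4, abs_mul, abs_mul, abs_of_pos hτ, abs_of_nonneg hφk.1] at h3
    have h5 := abs_mv_le hLB (hff (k + 1)) p
    rw [← hN] at h5
    have h6 : φ (X k) - φ (X (k + 1)) ≤ l / n * Cψ := by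
      refine hφk.2.trans ?_
      exact mul_le_mul_of_nonneg_left ((le_abs_self _).trans (hCψ _ (hX0 k) (hXl k hkn.le))) (by positivity)
    have h7 : τ * ((φ (X k) - φ (X (k + 1))) * |mv B (a (k + 1) - b (k + 1)) p|) ≤ C4 / n := by
      have h8 : C4 / n = τ * ((l / n * Cψ) * (LB * 1 * N)) := by
        rw [hC4]
        ring
      rw [h8]
      exact mul_le_mul_of_nonneg_left (mul_le_mul h6 h5 (abs_nonneg _) (by positivity)) hτ.le
    linarith [hΔa p]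
  · intro p
    have h1 := hbk k hkn p
    have h2 : b (k + 1) p - clip (b (k + 1) p + τ * (l2 - mv (MM A B (φ (X k))) (a (k + 1) - b (k + 1)) p)) =
        clip (b k p + τ * (l2 - mv (MM A B (φ (X k))) (a k - b k) p)) -
        clip (b (k + 1) p + τ * (l2 - mv (MM A B (φ (X k))) (a (k + 1) - b (k + 1)) p)) := by
      rw [← h1]
    rw [h2]
    refine (clip_lip _ _).trans ?_
    have h3 : b k p + τ * (l2 - mv (MM A B (φ (X k))) (a k - b k) p) -
        (b (k + 1) p + τ * (l2 - mv (MM A B (φ (X k))) (a (k + 1) - b (k + 1)) p)) =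
        -(b (k + 1) p - b k p) + τ * mv (MM A B (φ (X k))) ((a (k + 1) - b (k + 1)) - (a k - b k)) p := by
      rw [mv_sub _ (a (k + 1) - b (k + 1)) (a k - b k)]
      ring
    rw [h3]
    refine (abs_add_le _ _).trans ?_
    rw [abs_neg, abs_mul, abs_of_pos hτ]
    have h4 : ∀ q, |((a (k + 1) - b (k + 1)) - (a k - b k)) q| ≤ 2 * σ := by
      intro q
      have h5 : ((a (k + 1) - b (k + 1)) - (a k - b k)) q = (a (k + 1) q - a k q) - (b (k + 1) q - b k q) := by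
        simp only [Pi.sub_apply]
        ring
      rw [h5]
      refine (abs_sub _ _).trans ?_
      linarith [hΔa q, hΔb q]
    have h5 := abs_mv_le (hMb (X k) (hX0 k) (hXl k hkn.le)) h4 p
    rw [← hN] at h5
    have h6 := mul_le_mul_of_nonneg_left h5 hτ.le
    have h7 : σ + τ * (L * (2 * σ) * N) = C3 * σ := by
      rw [hC3]
      ring
    linarith [hΔb p]
  · -- the value
    have hE0 : 0 ≤ E k := by
      by_contra hc
      push Not at hc
      have h1 : (φ (X k) - φ (X (k + 1))) * E k ≤ 0 := mul_nonpos_of_nonneg_of_nonpos hφk.1 hc.le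
      have h2 : 0 ≤ 1 / (2 * τ) * S k := mul_nonneg (by positivity) (hS0 k)
      have h3 : D / n ≤ C1 / n / n := by linarith
      rw [div_le_div_iff_of_pos_right hn0] at h3
      linarith
    have h1 : (φ (X k) - φ (X (k + 1))) * E k ≤ l / n * ψ (X k) * E k := mul_le_mul_of_nonneg_right hφk.2 hE0
    have h2 : 0 ≤ 1 / (2 * τ) * S k := mul_nonneg (by positivity) (hS0 k)
    have h3 : D / n ≤ (l * ψ (X k) * E k + C1 / n) / n := by
      have h4 : (l * ψ (X k) * E k + C1 / n) / n = l / n * ψ (X k) * E k + C1 / n / n := by ring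
      rw [h4]
      linarith
    rw [div_le_div_iff_of_pos_right hn0] at h3
    rw [hE] at h3
    linarith

end Swp
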