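import Pool.Agent.Swp.Traj

/-!
# Swp.Energy: the energy inequality for one step of a trajectory
-/

namespace Swp

open Finset

variable {ι : Type*} [Fintype ι]

/-- The functional: `a` maximises, `b` minimises. -/
noncomputable def QQ (M : ι → ι → ℝ) (l1 l2 : ℝ) (a b : ι → ℝ) : ℝ :=
  l1 * ∑ p, a p - l2 * ∑ p, b p - qf M (a - b) / 2

theorem mv_add (M : ι → ι → ℝ) (f g : ι → ℝ) (p : ι) : mv M (f + g) p = mv M f p + mv M g p := by
  unfold mv
  rw [← sum_add_distrib]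
  refine sum_congr rfl fun q _ => ?_
  simp only [Pi.add_apply]
  ring

theorem mv_sub (M : ι → ι → ℝ) (f g : ι → ℝ) (p : ι) : mv M (f - g) p = mv M f p - mv M g p := by
  unfold mv
  rw [← sum_sub_distrib]
  refine sum_congr rfl fun q _ => ?_
  simp only [Pi.sub_apply]
  ring

theorem mv_symm {M : ι → ι → ℝ} (hM : ∀ p q, M p q = M q p) (f g : ι → ℝ) :
    ∑ p, f p * mv M g p = ∑ p, g p * mv M f p := by
  unfold mv
  simp_rw [mul_sum]
  rw [sum_comm]
  refine sum_congr rfl fun p _ => sum_congr rfl fun q _ => ?_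
  rw [hM q p]
  ring

theorem qf_diff {M : ι → ι → ℝ} (hM : ∀ p q, M p q = M q p) (f g : ι → ℝ) :
    qf M f - qf M g = ∑ p, (f p - g p) * (mv M f p + mv M g p) := by
  have h := mv_symm hM f g
  unfold qf
  have h2 : ∑ p, (f p - g p) * (mv M f p + mv M g p) =
      (∑ p, f p * mv M f p - ∑ p, g p * mv M g p) + (∑ p, f p * mv M g p - ∑ p, g p * mv M f p) := by
    rw [← sum_sub_distrib, ← sum_sub_distrib, ← sum_add_distrib]
    refine sum_congr rfl fun p _ => by ring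
  rw [h2, h]
  ring

theorem abs_mv_le {M : ι → ι → ℝ} {L c : ℝ} (hL : ∀ p q, |M p q| ≤ L) {f : ι → ℝ} (hf : ∀ p, |f p| ≤ c) (p : ι) :
    |mv M f p| ≤ L * c * Fintype.card ι := by
  unfold mv
  refine (abs_sum_le_sum_abs _ _).trans ?_
  have h1 : ∑ q, |M p q * f q| ≤ ∑ _q : ι, L * c := by
    refine sum_le_sum fun q _ => ?_
    rw [abs_mul]
    exact mul_le_mul (hL p q) (hf q) (abs_nonneg _) ((abs_nonneg _).trans (hL p q))
  refine h1.trans (le_of_eq ?_)
  rw [sum_const, card_univ, nsmul_eq_mul, mul_comm]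

theorem abs_qf_le {M : ι → ι → ℝ} {L : ℝ} (hL : ∀ p q, |M p q| ≤ L) (v : ι → ℝ) :
    |qf M v| ≤ L * Fintype.card ι * ∑ p, v p ^ 2 := by
  unfold qf mv
  simp_rw [mul_sum]
  refine (abs_sum_le_sum_abs _ _).trans ?_
  have h1 : ∀ p, |∑ q, v p * (M p q * v q)| ≤ ∑ q, L * ((v p ^ 2 + v q ^ 2) / 2) := by
    intro p
    refine (abs_sum_le_sum_abs _ _).trans (sum_le_sum fun q _ => ?_)
    have h2 : |v p * (M p q * v q)| = |M p q| * |v p * v q| := by
      rw [← abs_mul]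
      ring_nf
    rw [h2]
    have h3 : |v p * v q| ≤ (v p ^ 2 + v q ^ 2) / 2 := by
      rw [abs_le]
      constructor <;> nlinarith [sq_nonneg (v p + v q), sq_nonneg (v p - v q)]
    exact mul_le_mul (hL p q) h3 (abs_nonneg _) ((abs_nonneg _).trans (hL p q))
  refine (sum_le_sum fun p _ => h1 p).trans (le_of_eq ?_)
  simp_rw [← mul_sum, ← sum_div, sum_add_distrib, sum_const, card_univ, nsmul_eq_mul]
  rw [← mul_sum]
  ring

theorem energy_step {M M' : ι → ι → ℝ} (hM : ∀ p q, M p q = M q p) {L η τ l1 l2 : ℝ}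
    (hL : ∀ p q, |M p q| ≤ L) (hη : ∀ p q, |M' p q - M p q| ≤ η) (hτ : 0 < τ)
    (hτL : 2 * L * Fintype.card ι * τ ≤ 1) {a b a' b' : ι → ℝ}
    (_ha : ∀ p, 0 ≤ a p ∧ a p ≤ 1) (hb : ∀ p, 0 ≤ b p ∧ b p ≤ 1)
    (ha' : ∀ p, 0 ≤ a' p ∧ a' p ≤ 1) (hb' : ∀ p, 0 ≤ b' p ∧ b' p ≤ 1)
    (h1 : ∀ p, a p = clip (a' p + τ * (l1 - mv M' (a' - b') p)))
    (h2 : ∀ p, b' p = clip (b p + τ * (l2 - mv M (a - b) p))) :
    QQ M' l1 l2 a' b' - QQ M l1 l2 a b ≤
      (qf M (a' - b') - qf M' (a' - b')) / 2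
        - 1 / (2 * τ) * ∑ p, ((a' p - a p) ^ 2 + (b' p - b p) ^ 2) + τ * η ^ 2 * (Fintype.card ι) ^ 3 := by
  obtain ⟨N, hN⟩ : ∃ N : ℝ, N = (Fintype.card ι : ℝ) := ⟨_, rfl⟩
  rw [← hN] at hτL ⊢
  have e1 : QQ M' l1 l2 a' b' - QQ M l1 l2 a b =
      (qf M (a' - b') - qf M' (a' - b')) / 2 +
        (l1 * ∑ p, (a' p - a p) - l2 * ∑ p, (b' p - b p) - (qf M (a' - b') - qf M (a - b)) / 2) := by
    unfold QQ
    rw [sum_sub_distrib, sum_sub_distrib]
    ring
  rw [e1, qf_diff hM]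
  -- the pointwise decomposition
  have e2 : l1 * ∑ p, (a' p - a p) - l2 * ∑ p, (b' p - b p) -
      (∑ p, ((a' - b') p - (a - b) p) * (mv M (a' - b') p + mv M (a - b) p)) / 2 =
      ∑ p, (a' p - a p) * (l1 - mv M' (a' - b') p) + ∑ p, (b' p - b p) * (mv M (a - b) p - l2) +
      ∑ p, (a' p - a p) * (mv M' (a' - b') p - mv M (a' - b') p) +
      (∑ p, ((a' p - a p) + (b' p - b p)) * (mv M (a' - b') p - mv M (a - b) p)) / 2 := by
    rw [mul_sum, mul_sum, sum_div, sum_div, ← sum_sub_distrib, ← sum_sub_distrib, ← sum_add_distrib,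
      ← sum_add_distrib, ← sum_add_distrib]
    refine sum_congr rfl fun p _ => ?_
    simp only [Pi.sub_apply]
    ring
  rw [e2]
  have k1 : ∑ p, (a' p - a p) * (l1 - mv M' (a' - b') p) ≤ ∑ p, -((a' p - a p) ^ 2 / τ) := by
    refine sum_le_sum fun p _ => ?_
    have h3 := clip_step (ha' p).1 (ha' p).2 (τ * (l1 - mv M' (a' - b') p))
    rw [← h1 p] at h3
    rw [← neg_div, le_div_iff₀ hτ]
    nlinarith
  have k2 : ∑ p, (b' p - b p) * (mv M (a - b) p - l2) ≤ ∑ p, -((b' p - b p) ^ 2 / τ) := by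
    refine sum_le_sum fun p _ => ?_
    have h3 := clip_step (hb p).1 (hb p).2 (τ * (l2 - mv M (a - b) p))
    rw [← h2 p] at h3
    rw [← neg_div, le_div_iff₀ hτ]
    nlinarith
  have k3 : ∑ p, (a' p - a p) * (mv M' (a' - b') p - mv M (a' - b') p) ≤
      ∑ p : ι, ((a' p - a p) ^ 2 / (4 * τ) + τ * η ^ 2 * N ^ 2) := by
    refine sum_le_sum fun p _ => ?_
    have h3 : |mv M' (a' - b') p - mv M (a' - b') p| ≤ η * N := by
      have h4 : mv M' (a' - b') p - mv M (a' - b') p = mv (fun p q => M' p q - M p q) (a' - b') p := by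
        unfold mv
        rw [← sum_sub_distrib]
        exact sum_congr rfl fun q _ => by ring
      rw [h4]
      have h5 := abs_mv_le (c := 1) hη (f := a' - b') (fun q => by
        rw [Pi.sub_apply, abs_le]
        constructor <;> linarith [(ha' q).1, (ha' q).2, (hb' q).1, (hb' q).2]) p
      rw [mul_one, ← hN] at h5
      exact h5
    have h6 : (a' p - a p) * (mv M' (a' - b') p - mv M (a' - b') p) ≤ |a' p - a p| * (η * N) := by
      refine (le_abs_self _).trans ?_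
      rw [abs_mul]
      exact mul_le_mul_of_nonneg_left h3 (abs_nonneg _)
    refine h6.trans ?_
    have h7 : 0 ≤ (|a' p - a p| / (2 * τ) - η * N) ^ 2 * τ := by positivity
    have h8 : (|a' p - a p| / (2 * τ) - η * N) ^ 2 * τ =
        |a' p - a p| ^ 2 / (4 * τ) - |a' p - a p| * (η * N) + τ * η ^ 2 * N ^ 2 := by
      field_simp
      ring
    rw [h8, sq_abs] at h7
    linarith
  have k4 : (∑ p, ((a' p - a p) + (b' p - b p)) * (mv M (a' - b') p - mv M (a - b) p)) =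
      qf M (a' - a) - qf M (b' - b) := by
    have h3 : ∀ p, mv M (a' - b') p - mv M (a - b) p = mv M (a' - a) p - mv M (b' - b) p := by
      intro p
      simp only [mv_sub]
      ring
    have h4 := mv_symm hM (a' - a) (b' - b)
    unfold qf
    have h5 : ∑ p, ((a' p - a p) + (b' p - b p)) * (mv M (a' - b') p - mv M (a - b) p) =
        (∑ p, (a' - a) p * mv M (a' - a) p - ∑ p, (b' - b) p * mv M (b' - b) p) -
        (∑ p, (a' - a) p * mv M (b' - b) p - ∑ p, (b' - b) p * mv M (a' - a) p) := by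
      rw [← sum_sub_distrib, ← sum_sub_distrib, ← sum_sub_distrib]
      refine sum_congr rfl fun p _ => ?_
      rw [h3 p]
      simp only [Pi.sub_apply]
      ring
    rw [h5, h4]
    ring
  have k5 : qf M (a' - a) - qf M (b' - b) ≤ L * N * ∑ p, ((a' p - a p) ^ 2 + (b' p - b p) ^ 2) := by
    have h3 := abs_qf_le hL (a' - a)
    have h4 := abs_qf_le hL (b' - b)
    rw [sum_add_distrib, mul_add]
    have h5 := (abs_le.1 h3).2
    have h6 := (abs_le.1 h4).1
    simp only [Pi.sub_apply, ← hN] at h5 h6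
    linarith
  rw [k4]
  have k6 : ∑ p, -((a' p - a p) ^ 2 / τ) + ∑ p, -((b' p - b p) ^ 2 / τ) +
      ∑ p : ι, ((a' p - a p) ^ 2 / (4 * τ) + τ * η ^ 2 * N ^ 2) ≤
      -(3 / (4 * τ)) * ∑ p, ((a' p - a p) ^ 2 + (b' p - b p) ^ 2) + τ * η ^ 2 * N ^ 3 := by
    have h3 : ∑ _p : ι, τ * η ^ 2 * N ^ 2 = τ * η ^ 2 * N ^ 3 := by
      rw [sum_const, card_univ, nsmul_eq_mul, ← hN]
      ring
    rw [sum_add_distrib, h3, ← add_assoc, mul_sum, ← sum_add_distrib, ← sum_add_distrib]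
    refine add_le_add ?_ le_rfl
    refine sum_le_sum fun p _ => ?_
    have h4 : -((a' p - a p) ^ 2 / τ) + -((b' p - b p) ^ 2 / τ) + (a' p - a p) ^ 2 / (4 * τ) =
        -(3 / (4 * τ)) * (a' p - a p) ^ 2 - 1 / τ * (b' p - b p) ^ 2 := by
      field_simp
      ring
    rw [h4]
    have h5 : 3 / (4 * τ) ≤ 1 / τ := by
      rw [div_le_div_iff₀ (by positivity) hτ]
      linarith
    nlinarith [sq_nonneg (b' p - b p)]
  have k7 : L * N / 2 ≤ 1 / (4 * τ) := by
    rw [le_div_iff₀ (by positivity)]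
    nlinarith
  have k8 : 0 ≤ ∑ p, ((a' p - a p) ^ 2 + (b' p - b p) ^ 2) := sum_nonneg fun p _ => by positivity
  have k9 : (1 : ℝ) / (2 * τ) = 3 / (4 * τ) - 1 / (4 * τ) := by
    field_simp
    ring
  rw [k9]
  nlinarith [mul_le_mul_of_nonneg_right k7 k8]

end Swp
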