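import Pool.Agent.Swp.Energy

/-!
# Swp.Round: rounding of fractional sets

Multi-affine functions on the cube are minimised at the vertices; derandomised Chernoff bounds; the alteration method.
-/

namespace Swp

open Finset

variable {ι : Type*} [Fintype ι] [DecidableEq ι]

/-- Affine in every coordinate. -/
def IsMA (F : (ι → ℝ) → ℝ) : Prop :=
  ∀ x r, ∃ α β : ℝ, ∀ t, F (Function.update x r t) = α + β * t

omit [Fintype ι] in
theorem IsMA.add {F G : (ι → ℝ) → ℝ} (hF : IsMA F) (hG : IsMA G) : IsMA fun x => F x + G x := by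
  intro x r
  obtain ⟨a, b, h⟩ := hF x r
  obtain ⟨c, d, h'⟩ := hG x r
  exact ⟨a + c, b + d, fun t => by simp only [h, h']; ring⟩

omit [Fintype ι] in
theorem IsMA.smul {F : (ι → ℝ) → ℝ} (hF : IsMA F) (c : ℝ) : IsMA fun x => c * F x := by
  intro x r
  obtain ⟨a, b, h⟩ := hF x r
  exact ⟨c * a, c * b, fun t => by simp only [h]; ring⟩

theorem isMA_sum {κ : Type*} (s : Finset κ) (F : κ → (ι → ℝ) → ℝ) (hF : ∀ k ∈ s, IsMA (F k)) :
    IsMA fun x => ∑ k ∈ s, F k x := by
  classical
  induction s using Finset.induction_on with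
  | empty =>
    intro x r
    exact ⟨0, 0, fun t => by simp⟩
  | insert k s hk ih =>
    have h1 := hF k (mem_insert_self _ _)
    have h2 := ih fun j hj => hF j (mem_insert_of_mem hj)
    have h3 := h1.add h2
    simp_rw [sum_insert hk]
    exact h3

theorem isMA_prod (c : ι → ℝ) : IsMA fun x : ι → ℝ => ∏ q, (1 + c q * x q) := by
  intro x r
  refine ⟨∏ q ∈ univ.erase r, (1 + c q * x q), c r * ∏ q ∈ univ.erase r, (1 + c q * x q), fun t => ?_⟩
  simp only
  rw [← mul_prod_erase univ _ (mem_univ r), Function.update_self]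
  have h1 : ∏ q ∈ univ.erase r, (1 + c q * Function.update x r t q) = ∏ q ∈ univ.erase r, (1 + c q * x q) := by
    refine prod_congr rfl fun q hq => ?_
    rw [Function.update_of_ne (ne_of_mem_erase hq)]
  rw [h1]
  ring

theorem isMA_lin (c : ι → ℝ) : IsMA fun x : ι → ℝ => ∑ q, c q * x q := by
  intro x r
  refine ⟨∑ q ∈ univ.erase r, c q * x q, c r, fun t => ?_⟩
  simp only
  rw [← add_sum_erase univ _ (mem_univ r), Function.update_self]
  have h1 : ∑ q ∈ univ.erase r, c q * Function.update x r t q = ∑ q ∈ univ.erase r, c q * x q := by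
    refine sum_congr rfl fun q hq => ?_
    rw [Function.update_of_ne (ne_of_mem_erase hq)]
  rw [h1]
  ring

omit [Fintype ι] in
theorem isMA_pair {p q : ι} (hpq : p ≠ q) : IsMA fun x : ι → ℝ => x p * x q := by
  intro x r
  by_cases hp : r = p
  · subst hp
    refine ⟨0, x q, fun t => ?_⟩
    simp only
    rw [Function.update_self, Function.update_of_ne (Ne.symm hpq)]
    ring
  · by_cases hq : r = q
    · subst hq
      refine ⟨0, x p, fun t => ?_⟩
      simp only
      rw [Function.update_self, Function.update_of_ne hpq]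
      ring
    · refine ⟨x p * x q, 0, fun t => ?_⟩
      simp only
      rw [Function.update_of_ne (Ne.symm hp), Function.update_of_ne (Ne.symm hq)]
      ring

theorem isMA_qf {M : ι → ι → ℝ} (h0 : ∀ p, M p p = 0) : IsMA fun x : ι → ℝ => qf M x := by
  have h1 : (fun x : ι → ℝ => qf M x) = fun x => ∑ p, ∑ q, M p q * (x p * x q) := by
    funext x
    unfold qf mv
    refine sum_congr rfl fun p _ => ?_
    rw [mul_sum]
    exact sum_congr rfl fun q _ => by ring
  rw [h1]
  refine isMA_sum _ _ fun p _ => isMA_sum _ _ fun q _ => ?_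
  by_cases h : p = q
  · subst h
    rw [h0]
    intro x r
    exact ⟨0, 0, fun t => by ring⟩
  · exact (isMA_pair h).smul _

/-- A vertex of the cube where a multi-affine function is not larger; zeros are kept. -/
theorem IsMA.exists_vertex {F : (ι → ℝ) → ℝ} (hF : IsMA F) (x : ι → ℝ) (hx : ∀ p, 0 ≤ x p ∧ x p ≤ 1) :
    ∃ S : Finset ι, (∀ p ∈ S, 0 < x p) ∧ F (fun p => if p ∈ S then 1 else 0) ≤ F x := by
  have key : ∀ s : Finset ι, ∃ y : ι → ℝ, (∀ p ∈ s, y p = 0 ∨ y p = 1) ∧ (∀ p, 0 ≤ y p ∧ y p ≤ 1) ∧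
      (∀ p, x p = 0 → y p = 0) ∧ F y ≤ F x := by
    intro s
    induction s using Finset.induction_on with
    | empty => exact ⟨x, fun p hp => absurd hp (notMem_empty _), hx, fun p hp => hp, le_rfl⟩
    | insert r s hr ih =>
      obtain ⟨y, h1, h2, h3, h4⟩ := ih
      obtain ⟨α, β, hab⟩ := hF y r
      have hy : F y = α + β * y r := by rw [← hab (y r), Function.update_eq_self]
      by_cases hr0 : x r = 0
      · refine ⟨y, fun p hp => ?_, h2, h3, h4⟩
        rcases mem_insert.1 hp with rfl | hp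
        · exact Or.inl (h3 _ hr0)
        · exact h1 p hp
      · rcases le_total 0 β with hβ | hβ
        · refine ⟨Function.update y r 0, fun p hp => ?_, fun p => ?_, fun p hp => ?_, ?_⟩
          · by_cases hpr : p = r
            · subst hpr
              exact Or.inl (Function.update_self _ _ _)
            · rw [Function.update_of_ne hpr]
              exact h1 p ((mem_insert.1 hp).resolve_left hpr)
          · by_cases hpr : p = r
            · subst hpr
              rw [Function.update_self]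
              exact ⟨le_rfl, zero_le_one⟩
            · rw [Function.update_of_ne hpr]
              exact h2 p
          · by_cases hpr : p = r
            · subst hpr
              rw [Function.update_self]
            · rw [Function.update_of_ne hpr]
              exact h3 p hp
          · rw [hab]
            have := mul_nonneg hβ (h2 r).1
            linarith
        · refine ⟨Function.update y r 1, fun p hp => ?_, fun p => ?_, fun p hp => ?_, ?_⟩
          · by_cases hpr : p = r
            · subst hpr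
              exact Or.inr (Function.update_self _ _ _)
            · rw [Function.update_of_ne hpr]
              exact h1 p ((mem_insert.1 hp).resolve_left hpr)
          · by_cases hpr : p = r
            · subst hpr
              rw [Function.update_self]
              exact ⟨zero_le_one, le_rfl⟩
            · rw [Function.update_of_ne hpr]
              exact h2 p
          · by_cases hpr : p = r
            · subst hpr
              exact absurd hp hr0
            · rw [Function.update_of_ne hpr]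
              exact h3 p hp
          · rw [hab]
            have := mul_nonneg (neg_nonneg.2 hβ) (sub_nonneg.2 (h2 r).2)
            nlinarith
  obtain ⟨y, h1, h2, h3, h4⟩ := key univ
  refine ⟨univ.filter fun p => y p = 1, fun p hp => ?_, ?_⟩
  · rw [mem_filter] at hp
    refine lt_of_le_of_ne (hx p).1 fun h0 => ?_
    have := h3 p h0.symm
    rw [this] at hp
    exact zero_ne_one hp.2
  · have h5 : (fun p => if p ∈ univ.filter (fun p => y p = 1) then (1 : ℝ) else 0) = y := by
      funext p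
      rcases h1 p (mem_univ p) with h | h
      · rw [if_neg, h]
        rw [mem_filter, h]
        exact fun hh => zero_ne_one hh.2
      · rw [if_pos, h]
        rw [mem_filter]
        exact ⟨mem_univ _, h⟩
    rw [h5]
    exact h4

omit [DecidableEq ι] in
theorem prod_le_exp (c : ι → ℝ) (h : ∀ q, 0 ≤ 1 + c q) : ∏ q, (1 + c q) ≤ Real.exp (∑ q, c q) := by
  rw [Real.exp_sum]
  refine prod_le_prod (fun q _ => h q) fun q _ => ?_
  have := Real.add_one_le_exp (c q)
  linarith

/-- The value of the exponential products at a vertex. -/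
theorem prod_vertex (A : ι → ℝ) (hA : ∀ q, A q = 0 ∨ A q = 1) (S : Finset ι) (s : ℝ) :
    ∏ q, (1 + ((Real.exp s - 1) * A q) * (if q ∈ S then (1 : ℝ) else 0)) = Real.exp (s * ∑ q ∈ S, A q) := by
  have h1 : ∀ q, (1 + ((Real.exp s - 1) * A q) * (if q ∈ S then (1 : ℝ) else 0)) =
      Real.exp (if q ∈ S then s * A q else 0) := by
    intro q
    by_cases hq : q ∈ S
    · rw [if_pos hq, if_pos hq]
      rcases hA q with h | h
      · rw [h]
        simp
      · rw [h]
        ring_nf
    · rw [if_neg hq, if_neg hq]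
      simp
  rw [prod_congr rfl fun q _ => h1 q, ← Real.exp_sum]
  congr 1
  rw [mul_sum, sum_ite_mem, univ_inter]

theorem exp_sub_one_le {s : ℝ} (h0 : 0 ≤ s) (h1 : s ≤ 1) : Real.exp s - 1 ≤ s + s ^ 2 := by
  have h2 := Real.abs_exp_sub_one_sub_id_le (x := s) (by rw [abs_of_nonneg h0]; exact h1)
  have h3 := (abs_le.1 h2).2
  linarith

theorem one_sub_exp_ge {s : ℝ} (h0 : 0 ≤ s) (h1 : s ≤ 1) : s - s ^ 2 ≤ 1 - Real.exp (-s) := by
  have h2 := Real.abs_exp_sub_one_sub_id_le (x := -s) (by rw [abs_neg, abs_of_nonneg h0]; exact h1)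
  have h3 := (abs_le.1 h2).2
  have h4 : (-s) ^ 2 = s ^ 2 := by ring
  rw [h4] at h3
  linarith

/-- Rounding of a fractional set with nearly equal degrees. -/
theorem round (A : ι → ι → ℝ) (hA : ∀ p q, A p q = 0 ∨ A p q = 1) (f : ι → ℝ)
    (hf : ∀ p, 0 ≤ f p ∧ f p ≤ 1) {θ ε : ℝ} (hε : 0 < ε) (hε1 : ε ≤ 1) (hθ : 0 ≤ θ)
    (hw : ∀ p, 0 < f p → (1 - ε) * θ ≤ mv A f p ∧ mv A f p ≤ (1 + ε) * θ)
    (hbig : Real.log (4 * Fintype.card ι) ≤ ε ^ 2 * θ / 8) (hm : 8 ≤ ∑ p, f p) :
    ∃ S : Finset ι, (∀ p ∈ S, 0 < f p) ∧ (∑ p, f p) / 2 ≤ S.card ∧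
      ∀ p ∈ S, (1 - 2 * ε) * θ ≤ ∑ q ∈ S, A p q ∧ ∑ q ∈ S, A p q ≤ (1 + 2 * ε) * θ := by
  obtain ⟨s, hs⟩ : ∃ s, s = ε / 4 := ⟨_, rfl⟩
  have hs0 : 0 < s := by rw [hs]; positivity
  have hs1 : s ≤ 1 := by rw [hs]; linarith
  obtain ⟨m, hmdef⟩ : ∃ m, m = ∑ p, f p := ⟨_, rfl⟩
  rw [← hmdef] at hm ⊢
  have hN : (1 : ℝ) ≤ Fintype.card ι := by
    have h1 : m ≤ Fintype.card ι := by
      rw [hmdef]
      refine (sum_le_sum fun p _ => (hf p).2).trans (le_of_eq ?_)
      rw [sum_const, card_univ, nsmul_eq_mul, mul_one]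
    linarith
  obtain ⟨P, hP⟩ : ∃ P : Finset ι, P = univ.filter fun p => 0 < f p := ⟨_, rfl⟩
  obtain ⟨F1, hF1⟩ : ∃ F1 : ι → (ι → ℝ) → ℝ, ∀ p x, F1 p x =
      Real.exp (-(s * ((1 + 2 * ε) * θ))) * ∏ q, (1 + ((Real.exp s - 1) * A p q) * x q) := ⟨_, fun _ _ => rfl⟩
  obtain ⟨F2, hF2⟩ : ∃ F2 : ι → (ι → ℝ) → ℝ, ∀ p x, F2 p x =
      Real.exp (s * ((1 - 2 * ε) * θ)) * ∏ q, (1 + ((Real.exp (-s) - 1) * A p q) * x q) := ⟨_, fun _ _ => rfl⟩
  obtain ⟨F3, hF3⟩ : ∃ F3 : (ι → ℝ) → ℝ, ∀ x, F3 x =
      Real.exp (m / 2) * ∏ q, (1 + ((Real.exp (-1) - 1) * (1 : ι → ℝ) q) * x q) := ⟨_, fun _ => rfl⟩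
  have hMA : IsMA fun x => (∑ p ∈ P, (F1 p x + F2 p x)) + F3 x := by
    refine (isMA_sum _ _ fun p _ => IsMA.add ?_ ?_).add ?_
    · have h1 := (isMA_prod fun q => (Real.exp s - 1) * A p q).smul (Real.exp (-(s * ((1 + 2 * ε) * θ))))
      intro x r
      obtain ⟨α, β, h2⟩ := h1 x r
      exact ⟨α, β, fun t => by rw [hF1]; exact h2 t⟩
    · have h1 := (isMA_prod fun q => (Real.exp (-s) - 1) * A p q).smul (Real.exp (s * ((1 - 2 * ε) * θ)))
      intro x r
      obtain ⟨α, β, h2⟩ := h1 x r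
      exact ⟨α, β, fun t => by rw [hF2]; exact h2 t⟩
    · have h1 := (isMA_prod fun q : ι => (Real.exp (-1) - 1) * (1 : ι → ℝ) q).smul (Real.exp (m / 2))
      intro x r
      obtain ⟨α, β, h2⟩ := h1 x r
      exact ⟨α, β, fun t => by rw [hF3]; exact h2 t⟩
  obtain ⟨S, hS, hSF⟩ := hMA.exists_vertex f hf
  -- the value at `f`
  have hexps : 0 ≤ Real.exp s - 1 := by
    have := Real.add_one_le_exp s
    linarith
  have hexpn : ∀ u : ℝ, 0 ≤ u → Real.exp (-u) - 1 ≤ 0 := fun u hu => by
    have : Real.exp (-u) ≤ 1 := Real.exp_le_one_iff.2 (by linarith)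
    linarith
  have hexpn1 : ∀ u : ℝ, -1 ≤ Real.exp (-u) - 1 := fun u => by
    have := Real.exp_pos (-u)
    linarith
  have hAf : ∀ p q, 0 ≤ A p q * f q ∧ A p q * f q ≤ 1 := by
    intro p q
    rcases hA p q with h | h
    · rw [h]; simp
    · rw [h, one_mul]; exact hf q
  have hsmall : Real.exp (-(ε ^ 2 * θ / 8)) ≤ 1 / (4 * Fintype.card ι) := by
    have h1 : Real.exp (-(ε ^ 2 * θ / 8)) ≤ Real.exp (-Real.log (4 * Fintype.card ι)) :=
      Real.exp_le_exp.2 (by linarith)
    rw [Real.exp_neg (Real.log _), Real.exp_log (by positivity)] at h1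
    rw [one_div]
    exact h1
  have b1 : ∀ p ∈ P, F1 p f ≤ 1 / (4 * Fintype.card ι) := by
    intro p hp
    rw [hP, mem_filter] at hp
    have h1 := (hw p hp.2).2
    rw [hF1]
    have h2 : ∏ q, (1 + ((Real.exp s - 1) * A p q) * f q) ≤ Real.exp (∑ q, ((Real.exp s - 1) * A p q) * f q) :=
      prod_le_exp _ fun q => by
        have := mul_nonneg hexps (hAf p q).1
        nlinarith
    have h3 : ∑ q, ((Real.exp s - 1) * A p q) * f q = (Real.exp s - 1) * mv A f p := by
      unfold mv
      rw [mul_sum]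
      exact sum_congr rfl fun q _ => by ring
    rw [h3] at h2
    have h4 : (Real.exp s - 1) * mv A f p ≤ (s + s ^ 2) * ((1 + ε) * θ) := by
      have h5 : (Real.exp s - 1) * mv A f p ≤ (Real.exp s - 1) * ((1 + ε) * θ) := mul_le_mul_of_nonneg_left h1 hexps
      exact h5.trans (mul_le_mul_of_nonneg_right (exp_sub_one_le hs0.le hs1) (by positivity))
    refine le_trans ?_ hsmall
    calc Real.exp (-(s * ((1 + 2 * ε) * θ))) * ∏ q, (1 + ((Real.exp s - 1) * A p q) * f q)
        ≤ Real.exp (-(s * ((1 + 2 * ε) * θ))) * Real.exp ((s + s ^ 2) * ((1 + ε) * θ)) :=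
          mul_le_mul_of_nonneg_left (h2.trans (Real.exp_le_exp.2 h4)) (Real.exp_pos _).le
      _ = Real.exp (-(s * ((1 + 2 * ε) * θ)) + (s + s ^ 2) * ((1 + ε) * θ)) := (Real.exp_add _ _).symm
      _ ≤ Real.exp (-(ε ^ 2 * θ / 8)) := by
          apply Real.exp_le_exp.2
          rw [hs]
          have h6 : -(ε / 4 * ((1 + 2 * ε) * θ)) + (ε / 4 + (ε / 4) ^ 2) * ((1 + ε) * θ) =
              -(ε ^ 2 * θ / 4) + (ε ^ 2 * θ / 16) * (1 + ε) := by ring
          rw [h6]
          have h7 : (ε ^ 2 * θ / 16) * (1 + ε) ≤ (ε ^ 2 * θ / 16) * 2 :=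
            mul_le_mul_of_nonneg_left (by linarith) (by positivity)
          linarith
  have b2 : ∀ p ∈ P, F2 p f ≤ 1 / (4 * Fintype.card ι) := by
    intro p hp
    rw [hP, mem_filter] at hp
    have h1 := (hw p hp.2).1
    rw [hF2]
    have h2 : ∏ q, (1 + ((Real.exp (-s) - 1) * A p q) * f q) ≤ Real.exp (∑ q, ((Real.exp (-s) - 1) * A p q) * f q) :=
      prod_le_exp _ fun q => by
        have h5 := hexpn1 s
        have h6 := hAf p q
        nlinarith
    have h3 : ∑ q, ((Real.exp (-s) - 1) * A p q) * f q = -((1 - Real.exp (-s)) * mv A f p) := by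
      unfold mv
      rw [mul_sum, ← sum_neg_distrib]
      exact sum_congr rfl fun q _ => by ring
    rw [h3] at h2
    have h0m : 0 ≤ mv A f p := sum_nonneg fun q _ => (hAf p q).1
    have h4 : (s - s ^ 2) * ((1 - ε) * θ) ≤ (1 - Real.exp (-s)) * mv A f p := by
      have h5 : (s - s ^ 2) * ((1 - ε) * θ) ≤ (s - s ^ 2) * mv A f p :=
        mul_le_mul_of_nonneg_left h1 (by nlinarith)
      exact h5.trans (mul_le_mul_of_nonneg_right (one_sub_exp_ge hs0.le hs1) h0m)
    refine le_trans ?_ hsmall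
    calc Real.exp (s * ((1 - 2 * ε) * θ)) * ∏ q, (1 + ((Real.exp (-s) - 1) * A p q) * f q)
        ≤ Real.exp (s * ((1 - 2 * ε) * θ)) * Real.exp (-((s - s ^ 2) * ((1 - ε) * θ))) :=
          mul_le_mul_of_nonneg_left (h2.trans (Real.exp_le_exp.2 (by linarith))) (Real.exp_pos _).le
      _ = Real.exp (s * ((1 - 2 * ε) * θ) + -((s - s ^ 2) * ((1 - ε) * θ))) := (Real.exp_add _ _).symm
      _ ≤ Real.exp (-(ε ^ 2 * θ / 8)) := by
          apply Real.exp_le_exp.2
          rw [hs]
          have h6 : ε / 4 * ((1 - 2 * ε) * θ) + -((ε / 4 - (ε / 4) ^ 2) * ((1 - ε) * θ)) =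
              -(ε ^ 2 * θ / 4) + (ε ^ 2 * θ / 16) * (1 - ε) := by ring
          rw [h6]
          have h7 : (ε ^ 2 * θ / 16) * (1 - ε) ≤ (ε ^ 2 * θ / 16) * 2 :=
            mul_le_mul_of_nonneg_left (by linarith) (by positivity)
          linarith
  have b3 : F3 f < 1 / 2 := by
    rw [hF3]
    have h2 : ∏ q, (1 + ((Real.exp (-1) - 1) * (1 : ι → ℝ) q) * f q) ≤
        Real.exp (∑ q, ((Real.exp (-1) - 1) * (1 : ι → ℝ) q) * f q) :=
      prod_le_exp _ fun q => by
        have h5 := hexpn1 1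
        have h6 := hf q
        simp only [Pi.one_apply, mul_one]
        nlinarith
    have h3 : ∑ q, ((Real.exp (-1) - 1) * (1 : ι → ℝ) q) * f q = (Real.exp (-1) - 1) * m := by
      rw [hmdef, mul_sum]
      exact sum_congr rfl fun q _ => by simp
    rw [h3] at h2
    have h4 : Real.exp (-1) < 0.37 := by
      have := Real.exp_neg_one_lt_d9
      linarith
    have h5 : Real.exp (m / 2) * ∏ q, (1 + ((Real.exp (-1) - 1) * (1 : ι → ℝ) q) * f q) ≤ Real.exp (-1) := by
      calc _ ≤ Real.exp (m / 2) * Real.exp ((Real.exp (-1) - 1) * m) :=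
            mul_le_mul_of_nonneg_left h2 (Real.exp_pos _).le
        _ = Real.exp (m / 2 + (Real.exp (-1) - 1) * m) := (Real.exp_add _ _).symm
        _ ≤ _ := by
          apply Real.exp_le_exp.2
          nlinarith
    linarith
  have htot : (∑ p ∈ P, (F1 p f + F2 p f)) + F3 f < 1 := by
    have h1 : ∑ p ∈ P, (F1 p f + F2 p f) ≤ 1 / 2 := by
      calc ∑ p ∈ P, (F1 p f + F2 p f) ≤ ∑ _p ∈ P, (1 / (2 * (Fintype.card ι : ℝ))) := by
            refine sum_le_sum fun p hp => ?_
            have h2 := b1 p hp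
            have h3 := b2 p hp
            have h4 : (1 : ℝ) / (2 * Fintype.card ι) = 1 / (4 * Fintype.card ι) + 1 / (4 * Fintype.card ι) := by
              field_simp
              ring
            rw [h4]
            linarith
        _ = P.card * (1 / (2 * (Fintype.card ι : ℝ))) := by rw [sum_const, nsmul_eq_mul]
        _ ≤ Fintype.card ι * (1 / (2 * (Fintype.card ι : ℝ))) := by
            refine mul_le_mul_of_nonneg_right ?_ (by positivity)
            exact_mod_cast card_le_univ P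
        _ = 1 / 2 := by
            field_simp
    linarith
  -- the value at the vertex
  have hpos1 : ∀ p, 0 ≤ F1 p (fun p => if p ∈ S then 1 else 0) := by
    intro p
    rw [hF1, prod_vertex _ (hA p)]
    positivity
  have hpos2 : ∀ p, 0 ≤ F2 p (fun p => if p ∈ S then 1 else 0) := by
    intro p
    rw [hF2, prod_vertex _ (hA p)]
    positivity
  have hpos3 : 0 ≤ F3 (fun p => if p ∈ S then 1 else 0) := by
    rw [hF3, prod_vertex (1 : ι → ℝ) (fun q => Or.inr rfl)]
    positivity
  have hSV : (∑ p ∈ P, (F1 p (fun p => if p ∈ S then 1 else 0) + F2 p (fun p => if p ∈ S then 1 else 0))) +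
      F3 (fun p => if p ∈ S then 1 else 0) < 1 := lt_of_le_of_lt hSF htot
  have hsum0 : 0 ≤ ∑ p ∈ P, (F1 p (fun p => if p ∈ S then 1 else 0) + F2 p (fun p => if p ∈ S then 1 else 0)) :=
    sum_nonneg fun p _ => add_nonneg (hpos1 p) (hpos2 p)
  refine ⟨S, hS, ?_, fun p hp => ?_⟩
  · have h1 : F3 (fun p => if p ∈ S then 1 else 0) < 1 := by linarith
    rw [hF3, prod_vertex (1 : ι → ℝ) (fun q => Or.inr rfl), ← Real.exp_add, Real.exp_lt_one_iff] at h1
    simp only [Pi.one_apply, sum_const, nsmul_eq_mul, mul_one] at h1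
    linarith
  · have hpP : p ∈ P := by
      rw [hP, mem_filter]
      exact ⟨mem_univ _, hS p hp⟩
    have h1 := single_le_sum (f := fun p => (F1 p (fun p => if p ∈ S then 1 else 0) + F2 p (fun p => if p ∈ S then 1 else 0)))
      (fun p _ => add_nonneg (hpos1 p) (hpos2 p)) hpP
    have h2 : F1 p (fun p => if p ∈ S then 1 else 0) < 1 := by linarith [hpos2 p]
    have h3 : F2 p (fun p => if p ∈ S then 1 else 0) < 1 := by linarith [hpos1 p]
    rw [hF1, prod_vertex _ (hA p), ← Real.exp_add, Real.exp_lt_one_iff] at h2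
    rw [hF2, prod_vertex _ (hA p), ← Real.exp_add, Real.exp_lt_one_iff] at h3
    constructor
    · have h4 : s * ((1 - 2 * ε) * θ) < s * ∑ q ∈ S, A p q := by linarith
      exact (lt_of_mul_lt_mul_left h4 hs0.le).le
    · have h4 : s * ∑ q ∈ S, A p q < s * ((1 + 2 * ε) * θ) := by linarith
      exact (lt_of_mul_lt_mul_left h4 hs0.le).le

end Swp
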