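import Pool.Agent.Swp.Sweep
import Pool.Agent.Swp.Round

/-!
# Swp.Near: large nearly regular induced subgraphs

Every graph on `n` vertices has an induced subgraph on at least `ε^3 n / (C log n)` vertices with maximum degree at most `1 + ε` times the minimum degree.
-/

namespace Swp

open Finset

variable {ι : Type*} [Fintype ι] [DecidableEq ι]

omit [Fintype ι] in
theorem indep_aux (A : ι → ι → ℝ) (hA : ∀ p q, A p q = 0 ∨ A p q = 1) (hs : ∀ p q, A p q = A q p)
    (h0 : ∀ p, A p p = 0) : ∀ (n : ℕ) (S : Finset ι), S.card = n →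
    ∃ T ⊆ S, (∀ p ∈ T, ∀ q ∈ T, A p q = 0) ∧ (S.card : ℝ) - (∑ p ∈ S, ∑ q ∈ S, A p q) / 2 ≤ T.card := by
  intro n
  induction n with
  | zero =>
    intro S hS
    refine ⟨S, Subset.refl _, ?_, ?_⟩
    · rw [card_eq_zero] at hS
      subst hS
      simp
    · rw [card_eq_zero] at hS
      subst hS
      simp
  | succ n ih =>
    intro S hS
    have hnn : ∀ p q, 0 ≤ A p q := fun p q => by rcases hA p q with h | h <;> rw [h] <;> norm_num
    by_cases hi : ∀ p ∈ S, ∀ q ∈ S, A p q = 0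
    · refine ⟨S, Subset.refl _, hi, ?_⟩
      have : 0 ≤ ∑ p ∈ S, ∑ q ∈ S, A p q := sum_nonneg fun p _ => sum_nonneg fun q _ => hnn p q
      linarith
    · push Not at hi
      obtain ⟨u, hu, v, hv, huv⟩ := hi
      have huv1 : A u v = 1 := (hA u v).resolve_left huv
      obtain ⟨T, hT, hTi, hTc⟩ := ih (S.erase u) (by rw [card_erase_of_mem hu, hS]; rfl)
      refine ⟨T, hT.trans (erase_subset _ _), hTi, le_trans ?_ hTc⟩
      have e1 : ((S.erase u).card : ℝ) = S.card - 1 := by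
        rw [card_erase_of_mem hu, Nat.cast_sub (by omega)]
        simp
      have e2 : ∑ p ∈ S, ∑ q ∈ S, A p q = ∑ p ∈ S.erase u, ∑ q ∈ S.erase u, A p q + 2 * ∑ q ∈ S.erase u, A u q := by
        rw [← add_sum_erase S _ hu]
        have e3 : ∀ p, ∑ q ∈ S, A p q = A p u + ∑ q ∈ S.erase u, A p q := fun p => (add_sum_erase S _ hu).symm
        rw [sum_congr rfl fun p _ => e3 p, sum_add_distrib, e3 u, h0 u]
        have e4 : ∑ p ∈ S.erase u, A p u = ∑ q ∈ S.erase u, A u q := sum_congr rfl fun p _ => hs p u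
        rw [e4]
        ring
      have e3 : 1 ≤ ∑ q ∈ S.erase u, A u q := by
        rw [← huv1]
        have hvu : v ≠ u := by
          rintro rfl
          rw [h0 v] at huv1
          exact zero_ne_one huv1
        exact single_le_sum (fun q _ => hnn u q) (mem_erase.2 ⟨hvu, hv⟩)
      rw [e1, e2]
      linarith

theorem indep_of_sparse (A : ι → ι → ℝ) (hA : ∀ p q, A p q = 0 ∨ A p q = 1) (hs : ∀ p q, A p q = A q p)
    (h0 : ∀ p, A p p = 0) (a : ι → ℝ) (ha : ∀ p, 0 ≤ a p ∧ a p ≤ 1) :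
    ∃ T : Finset ι, (∀ p ∈ T, ∀ q ∈ T, A p q = 0) ∧ ∑ p, a p - qf A a / 2 ≤ T.card := by
  have hMA : IsMA fun x : ι → ℝ => (1 / 2) * qf A x + (-1) * ∑ p, (1 : ℝ) * x p :=
    ((isMA_qf h0).smul _).add ((isMA_lin fun _ => 1).smul _)
  obtain ⟨S, -, hS⟩ := hMA.exists_vertex a ha
  obtain ⟨T, -, hT, hTc⟩ := indep_aux A hA hs h0 S.card S rfl
  refine ⟨T, hT, le_trans ?_ hTc⟩
  have e1 : qf A (fun p => if p ∈ S then 1 else 0) = ∑ p ∈ S, ∑ q ∈ S, A p q := by
    unfold qf mv
    have h1 : ∀ p, (if p ∈ S then (1 : ℝ) else 0) * ∑ q, A p q * (if q ∈ S then (1 : ℝ) else 0) =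
        if p ∈ S then ∑ q ∈ S, A p q else 0 := by
      intro p
      by_cases hp : p ∈ S
      · rw [if_pos hp, if_pos hp, one_mul]
        simp only [mul_ite, mul_one, mul_zero]
        rw [sum_ite_mem, univ_inter]
      · rw [if_neg hp, if_neg hp, zero_mul]
    rw [sum_congr rfl fun p _ => h1 p, sum_ite_mem, univ_inter]
  have e2 : ∑ p, (1 : ℝ) * (if p ∈ S then (1 : ℝ) else 0) = S.card := by
    simp only [one_mul]
    rw [sum_ite_mem, univ_inter, sum_const, nsmul_eq_mul, mul_one]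
  have e3 : ∑ p, (1 : ℝ) * a p = ∑ p, a p := sum_congr rfl fun p _ => one_mul _
  simp only at hS
  rw [e1, e2, e3] at hS
  linarith

theorem qf_MM_zero (B : ι → ι → ℝ) (t : ℝ) (f : ι → ℝ) : qf (MM (fun _ _ => 0) B t) f = t * qf B f := by
  unfold qf mv MM
  rw [mul_sum]
  refine sum_congr rfl fun p _ => ?_
  rw [mul_left_comm, mul_sum (a := t)]
  congr 1
  exact sum_congr rfl fun q _ => by ring

theorem mv_MM_zero (B : ι → ι → ℝ) (t : ℝ) (f : ι → ℝ) (p : ι) :
    mv (MM (fun _ _ => 0) B t) f p = t * mv B f p := by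
  unfold mv MM
  rw [mul_sum]
  exact sum_congr rfl fun q _ => by ring

/-- The nearly regular subset, real matrix form. -/
theorem near_mat (A : ι → ι → ℝ) (hA : ∀ p q, A p q = 0 ∨ A p q = 1) (hs : ∀ p q, A p q = A q p)
    (h0 : ∀ p, A p p = 0) (hN : 2 ≤ Fintype.card ι) {ε : ℝ} (hε : 0 < ε) (hε1 : ε ≤ 1 / 8) :
    (∃ T : Finset ι, (∀ p ∈ T, ∀ q ∈ T, A p q = 0) ∧
      ε ^ 3 * Fintype.card ι / (128 * Real.log (4 * Fintype.card ι)) ≤ T.card) ∨
    ∃ (S : Finset ι) (θ : ℝ), 0 < θ ∧ ε * Fintype.card ι / (2 * Real.log (Fintype.card ι)) ≤ S.card ∧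
      ∀ p ∈ S, (1 - 2 * ε) * θ ≤ ∑ q ∈ S, A p q ∧ ∑ q ∈ S, A p q ≤ (1 + 2 * ε) * θ := by
  obtain ⟨N, hNdef⟩ : ∃ N : ℝ, N = (Fintype.card ι : ℝ) := ⟨_, rfl⟩
  have hN2 : (2 : ℝ) ≤ N := by rw [hNdef]; exact_mod_cast hN
  rw [← hNdef]
  have hN0 : 0 < N := by linarith
  have hlogN : 0 < Real.log N := Real.log_pos (by linarith)
  have hlog4 : 2 ≤ Real.log (4 * N) := by
    have h1 : Real.log 8 ≤ Real.log (4 * N) := Real.log_le_log (by norm_num) (by linarith)
    have h2 : Real.log 8 = 3 * Real.log 2 := by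
      rw [show (8 : ℝ) = 2 ^ 3 by norm_num, Real.log_pow]
      norm_num
    have := Real.log_two_gt_d9
    linarith
  have hA0 : ∀ p q, 0 ≤ A p q := fun p q => by rcases hA p q with h | h <;> rw [h] <;> norm_num
  have hA1 : ∀ p q, A p q ≤ 1 := fun p q => by rcases hA p q with h | h <;> rw [h] <;> norm_num
  obtain ⟨θ0, hθ0⟩ : ∃ θ0, θ0 = 8 * Real.log (4 * N) / ε ^ 2 := ⟨_, rfl⟩
  have hθ1 : 16 ≤ θ0 := by
    rw [hθ0, le_div_iff₀ (by positivity)]
    have : ε ^ 2 ≤ 1 := by nlinarith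
    nlinarith
  have hθ00 : 0 < θ0 := by linarith
  by_cases hsp : ∃ a : ι → ℝ, (∀ p, 0 ≤ a p ∧ a p ≤ 1) ∧ ε * N < (1 + ε) * ∑ p, a p - qf A a / (2 * θ0)
  · left
    obtain ⟨a, ha, hval⟩ := hsp
    obtain ⟨s, hsdef⟩ : ∃ s, s = 1 / (2 * θ0 * (1 + ε)) := ⟨_, rfl⟩
    have hs0 : 0 < s := by rw [hsdef]; positivity
    have hs1 : s ≤ 1 := by
      rw [hsdef, div_le_one (by positivity)]
      nlinarith
    have hqf0 : 0 ≤ qf A a := sum_nonneg fun p _ => mul_nonneg (ha p).1
      (sum_nonneg fun q _ => mul_nonneg (hA0 p q) (ha q).1)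
    obtain ⟨T, hT, hTc⟩ := indep_of_sparse A hA hs h0 (fun p => s * a p) (fun p =>
      ⟨mul_nonneg hs0.le (ha p).1, by nlinarith [(ha p).1, (ha p).2]⟩)
    refine ⟨T, hT, le_trans ?_ hTc⟩
    have e1 : qf A (fun p => s * a p) = s ^ 2 * qf A a := by
      unfold qf mv
      rw [mul_sum]
      refine sum_congr rfl fun p _ => ?_
      rw [mul_sum, mul_sum, mul_sum]
      exact sum_congr rfl fun q _ => by ring
    rw [e1, ← mul_sum]
    have hm0 : 0 ≤ ∑ p, a p := sum_nonneg fun p _ => (ha p).1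
    have h1 : qf A a / (2 * θ0) ≤ (1 + ε) * ∑ p, a p := by
      have : 0 < ε * N := by positivity
      linarith
    have h2 : 0 ≤ qf A a / (2 * θ0) := by positivity
    have h3 : s ^ 2 * qf A a / 2 ≤ s * (∑ p, a p) / 2 := by
      have h4 : qf A a ≤ (1 + ε) * (∑ p, a p) * (2 * θ0) := by
        rwa [div_le_iff₀ (by positivity)] at h1
      have h5 : s * (2 * θ0 * (1 + ε)) = 1 := by
        rw [hsdef]
        field_simp
      have h6 : s ^ 2 * qf A a ≤ s ^ 2 * ((1 + ε) * (∑ p, a p) * (2 * θ0)) :=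
        mul_le_mul_of_nonneg_left h4 (by positivity)
      have h7 : s ^ 2 * ((1 + ε) * (∑ p, a p) * (2 * θ0)) = s * (∑ p, a p) * (s * (2 * θ0 * (1 + ε))) := by ring
      rw [h7, h5, mul_one] at h6
      linarith
    have h4 : ε * N / 2 ≤ ∑ p, a p := by nlinarith
    have h5 : ε ^ 3 * N / (128 * Real.log (4 * N)) ≤ s * (ε * N / 2) / 2 := by
      rw [hsdef, hθ0]
      have h6 : 1 / (2 * (8 * Real.log (4 * N) / ε ^ 2) * (1 + ε)) * (ε * N / 2) / 2 =
          ε ^ 3 * N / (64 * Real.log (4 * N) * (1 + ε)) := by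
        field_simp
        ring
      rw [h6]
      apply div_le_div_of_nonneg_left (by positivity) (by positivity)
      nlinarith
    have h6 : s * (ε * N / 2) / 2 ≤ s * (∑ p, a p) / 2 := by
      have := mul_le_mul_of_nonneg_left h4 hs0.le
      linarith
    linarith
  · right
    push Not at hsp
    obtain ⟨φ, hφ⟩ : ∃ φ : ℝ → ℝ, ∀ x, φ x = Real.exp (-x) / θ0 := ⟨_, fun _ => rfl⟩
    have hφc : Continuous φ := by
      have : φ = fun x => Real.exp (-x) / θ0 := funext hφ
      rw [this]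
      fun_prop
    have hDD : ∀ a b : ι → ℝ, (∀ p, 0 ≤ a p ∧ a p ≤ 1) → (∀ p, 0 ≤ b p ∧ b p ≤ 1) →
        ε * N ≤ QQ (MM (fun _ _ => 0) A (φ (Real.log N))) (1 + ε) (1 - ε) 1 b -
          QQ (MM (fun _ _ => 0) A (φ 0)) (1 + ε) (1 - ε) a 0 := by
      intro a b ha hb
      have e1 : QQ (MM (fun _ _ => 0) A (φ 0)) (1 + ε) (1 - ε) a 0 = (1 + ε) * ∑ p, a p - qf A a / (2 * θ0) := by
        unfold QQ
        rw [qf_MM_zero, hφ, sub_zero]
        simp only [Pi.zero_apply, sum_const_zero, mul_zero, sub_zero, neg_zero, Real.exp_zero]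
        field_simp
      have h1 := hsp a ha
      rw [e1]
      obtain ⟨g, hg⟩ : ∃ g : ι → ℝ, g = 1 - b := ⟨_, rfl⟩
      have hg01 : ∀ p, 0 ≤ g p ∧ g p ≤ 1 := by
        intro p
        rw [hg, Pi.sub_apply, Pi.one_apply]
        constructor <;> linarith [(hb p).1, (hb p).2]
      have hsg : ∑ p, g p = N - ∑ p, b p := by
        rw [hg]
        simp only [Pi.sub_apply, Pi.one_apply]
        rw [sum_sub_distrib, sum_const, card_univ, nsmul_eq_mul, mul_one, hNdef]
      have hs1 : ∑ p : ι, (1 : ι → ℝ) p = N := by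
        simp only [Pi.one_apply]
        rw [sum_const, card_univ, nsmul_eq_mul, mul_one, hNdef]
      have hqf : qf A g ≤ N * ∑ p, g p := by
        unfold qf
        rw [mul_sum]
        refine sum_le_sum fun p _ => ?_
        rw [mul_comm]
        refine mul_le_mul_of_nonneg_right ?_ (hg01 p).1
        unfold mv
        rw [hNdef]
        refine (sum_le_sum fun q _ => mul_le_one₀ (hA1 p q) (hg01 q).1 (hg01 q).2).trans (le_of_eq ?_)
        rw [sum_const, card_univ, nsmul_eq_mul, mul_one]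
      have hφl : φ (Real.log N) = 1 / (N * θ0) := by
        rw [hφ, Real.exp_neg, Real.exp_log hN0]
        field_simp
      have hsg0 : 0 ≤ ∑ p, g p := sum_nonneg fun p _ => (hg01 p).1
      unfold QQ
      rw [qf_MM_zero, ← hg, hs1, hφl]
      have h2 : 1 / (N * θ0) * qf A g / 2 ≤ (∑ p, g p) / 2 := by
        have h3 : 1 / (N * θ0) * qf A g ≤ 1 / (N * θ0) * (N * ∑ p, g p) :=
          mul_le_mul_of_nonneg_left hqf (by positivity)
        have h4 : 1 / (N * θ0) * (N * ∑ p, g p) = (∑ p, g p) / θ0 := by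
          field_simp
        have h5 : (∑ p, g p) / θ0 ≤ ∑ p, g p := div_le_self hsg0 (by linarith)
        linarith
      have h3 : ∑ p, b p = N - ∑ p, g p := by linarith
      rw [h3]
      nlinarith
    obtain ⟨x, hx0, hxl, f, hf, hw, hD⟩ := sweep (fun _ _ => 0) A (fun _ _ => rfl) hs (φ := φ) (ψ := φ) hφc hφc
      hlogN (fun x y _ hxy _ => by
        rw [hφ, hφ]
        have h1 : Real.exp (-y) = Real.exp (-x) * Real.exp (-(y - x)) := by
          rw [← Real.exp_add]
          ring_nf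
        have h2 : 1 - (y - x) ≤ Real.exp (-(y - x)) := by
          have := Real.add_one_le_exp (-(y - x))
          linarith
        have h3 : Real.exp (-(y - x)) ≤ 1 := Real.exp_le_one_iff.2 (by linarith)
        have h4 := Real.exp_pos (-x)
        rw [h1, ← sub_div]
        constructor
        · apply div_nonneg _ hθ00.le
          nlinarith
        · rw [← mul_div_assoc]
          apply div_le_div_of_nonneg_right _ hθ00.le
          nlinarith) (l1 := 1 + ε) (l2 := 1 - ε) (D := ε * N) (by linarith) (by positivity) hDD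
    obtain ⟨θ, hθ⟩ : ∃ θ, θ = θ0 * Real.exp x := ⟨_, rfl⟩
    have hexp1 : 1 ≤ Real.exp x := Real.one_le_exp hx0
    have hθge : θ0 ≤ θ := by rw [hθ]; nlinarith
    have hθpos : 0 < θ := by linarith
    have hφx : φ x = 1 / θ := by
      rw [hφ, hθ, Real.exp_neg]
      field_simp
    have hw' : ∀ p, 0 < f p → (1 - ε) * θ ≤ mv A f p ∧ mv A f p ≤ (1 + ε) * θ := by
      intro p hp
      have h1 := hw p hp
      rw [mv_MM_zero, hφx, one_div_mul_eq_div, le_div_iff₀ hθpos, div_le_iff₀ hθpos] at h1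
      exact h1
    rw [hφx] at hD
    have hqf : qf A f ≤ (1 + ε) * θ * ∑ p, f p := by
      unfold qf
      rw [mul_sum]
      refine sum_le_sum fun p _ => ?_
      rcases eq_or_lt_of_le (hf p).1 with h | h
      · rw [← h]
        simp
      · rw [mul_comm]
        exact mul_le_mul_of_nonneg_right (hw' p h).2 h.le
    have hm : ε * N / Real.log N ≤ ∑ p, f p := by
      rw [div_le_iff₀ hlogN]
      have hm0 : 0 ≤ ∑ p, f p := sum_nonneg fun p _ => (hf p).1
      have h1 : Real.log N * (1 / θ) * (qf A f / 2) ≤ Real.log N * (1 / θ) * ((1 + ε) * θ * (∑ p, f p) / 2) :=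
        mul_le_mul_of_nonneg_left (by linarith) (by positivity)
      have h2 : Real.log N * (1 / θ) * ((1 + ε) * θ * (∑ p, f p) / 2) = Real.log N * (∑ p, f p) * ((1 + ε) / 2) := by
        field_simp
      rw [h2] at h1
      have h3 : Real.log N * (∑ p, f p) * ((1 + ε) / 2) ≤ Real.log N * (∑ p, f p) * 1 :=
        mul_le_mul_of_nonneg_left (by linarith) (by positivity)
      linarith
    obtain ⟨p0, hp0⟩ : ∃ p, 0 < f p := by
      by_contra hc
      push Not at hc
      have h1 : ∑ p, f p ≤ 0 := sum_nonpos fun p _ => hc p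
      have h2 : 0 < ε * N / Real.log N := by positivity
      linarith
    have hm8 : 8 ≤ ∑ p, f p := by
      have h1 := (hw' p0 hp0).1
      have h2 : mv A f p0 ≤ ∑ p, f p := by
        unfold mv
        refine sum_le_sum fun q _ => ?_
        have := hA1 p0 q
        have := (hf q).1
        nlinarith
      nlinarith
    obtain ⟨S, -, hSc, hSd⟩ := round A hA f hf hε (by linarith) hθpos.le hw' (by
      have h1 : ε ^ 2 * θ0 / 8 = Real.log (4 * N) := by
        rw [hθ0]
        field_simp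
      have h2 : ε ^ 2 * θ0 ≤ ε ^ 2 * θ := mul_le_mul_of_nonneg_left hθge (by positivity)
      rw [← hNdef, ← h1]
      linarith) hm8
    refine ⟨S, θ, hθpos, ?_, hSd⟩
    have h1 : ε * N / (2 * Real.log N) = ε * N / Real.log N / 2 := by
      field_simp
    rw [h1]
    linarith

end Swp
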