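import Pool.Agent.Swp.Near

/-!
# Swp.Spread: induced subgraphs with a small degree spread

Every graph on `N` vertices has an induced subgraph on about `s` vertices whose degrees differ by `O(s^2/N + sqrt(d log N) + log N)`.
-/

namespace Swp

open Finset

variable {ι : Type*} [Fintype ι]

/-- The additive window: `(A f)_p` is within `T` of `r Σ f` on the support of `f`. -/
theorem sweep_add (A : ι → ι → ℝ) (hA : ∀ p q, A p q = 0 ∨ A p q = 1) (hs : ∀ p q, A p q = A q p)
    {T : ℝ} (hT : 0 < T) (hTN : T ≤ Fintype.card ι) :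
    ∃ (r : ℝ) (f : ι → ℝ), (∀ p, 0 ≤ f p ∧ f p ≤ 1) ∧
      (∀ p, 0 < f p → |mv A f p - r * ∑ q, f q| ≤ T) ∧
      2 / 3 * (T * Fintype.card ι) ≤ (∑ p, f p) ^ 2 := by
  obtain ⟨N, hNdef⟩ : ∃ N : ℝ, N = (Fintype.card ι : ℝ) := ⟨_, rfl⟩
  rw [← hNdef] at hTN ⊢
  have hN0 : 0 < N := by linarith
  have hA0 : ∀ p q, 0 ≤ A p q := fun p q => by rcases hA p q with h | h <;> rw [h] <;> norm_num
  have hA1 : ∀ p q, A p q ≤ 1 := fun p q => by rcases hA p q with h | h <;> rw [h] <;> norm_num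
  have hJ : ∀ g : ι → ℝ, qf (fun _ _ => (1 : ℝ)) g = (∑ p, g p) ^ 2 := by
    intro g
    unfold qf mv
    simp only [one_mul]
    rw [← sum_mul, sq]
  have hqM : ∀ (t : ℝ) (g : ι → ℝ), qf (MM A (fun _ _ => (1 : ℝ)) t) g = qf A g + t * (∑ p, g p) ^ 2 := by
    intro t g
    rw [← hJ]
    unfold qf mv MM
    rw [mul_sum, ← sum_add_distrib]
    refine sum_congr rfl fun p _ => ?_
    have h1 : ∑ q, (A p q + t * (fun _ _ => (1 : ℝ)) p q) * g q = ∑ q, A p q * g q + t * ∑ q, (fun _ _ => (1 : ℝ)) p q * g q := by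
      rw [mul_sum, ← sum_add_distrib]
      exact sum_congr rfl fun q _ => by ring
    rw [h1]
    ring
  have hqA0 : ∀ g : ι → ℝ, (∀ p, 0 ≤ g p) → 0 ≤ qf A g := fun g hg =>
    sum_nonneg fun p _ => mul_nonneg (hg p) (sum_nonneg fun q _ => mul_nonneg (hA0 p q) (hg q))
  have hqA1 : ∀ g : ι → ℝ, (∀ p, 0 ≤ g p) → qf A g ≤ (∑ p, g p) ^ 2 := by
    intro g hg
    rw [← hJ]
    unfold qf mv
    refine sum_le_sum fun p _ => mul_le_mul_of_nonneg_left (sum_le_sum fun q _ => ?_) (hg p)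
    exact mul_le_mul_of_nonneg_right (hA1 p q) (hg q)
  have hs1 : ∑ p : ι, (1 : ι → ℝ) p = N := by
    simp only [Pi.one_apply]
    rw [sum_const, card_univ, nsmul_eq_mul, mul_one, hNdef]
  obtain ⟨x, -, -, f, hf, hw, hD⟩ := sweep A (fun _ _ => (1 : ℝ)) hs (fun _ _ => rfl)
    (φ := fun x => 1 - x) (ψ := fun _ => 1) (by fun_prop) (by fun_prop) (l := 3) (by norm_num)
    (fun x y _ hxy _ => ⟨by linarith, by linarith⟩) (l1 := T) (l2 := -T) (D := T * N) (by linarith) (by positivity)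
    (by
      intro a b ha hb
      obtain ⟨g, hg⟩ : ∃ g : ι → ℝ, g = 1 - b := ⟨_, rfl⟩
      have hg01 : ∀ p, 0 ≤ g p ∧ g p ≤ 1 := by
        intro p
        rw [hg]
        simp only [Pi.sub_apply, Pi.one_apply]
        constructor <;> linarith [(hb p).1, (hb p).2]
      have hsum : ∑ p, g p = N - ∑ p, b p := by
        rw [hg]
        simp only [Pi.sub_apply, Pi.one_apply]
        rw [sum_sub_distrib, sum_const, card_univ, nsmul_eq_mul, mul_one, hNdef]
      have h1 := hqA1 g fun p => (hg01 p).1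
      have h2 := hqA0 a fun p => (ha p).1
      unfold QQ
      rw [hqM, hqM, ← hg, hs1, sub_zero]
      have h3 : ∑ p, b p = N - ∑ p, g p := by linarith
      have h4 : ∑ p : ι, (0 : ι → ℝ) p = 0 := by simp
      rw [h3, h4]
      nlinarith [sq_nonneg (∑ p, g p - T), sq_nonneg (∑ p, a p - T)])
  refine ⟨-(1 - x), f, hf, fun p hp => ?_, ?_⟩
  · have h1 := hw p hp
    rw [mv_MM_eq] at h1
    have h2 : mv (fun _ _ => (1 : ℝ)) f p = ∑ q, f q := by
      unfold mv
      simp only [one_mul]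
    rw [h2] at h1
    rw [abs_le]
    constructor <;> linarith [h1.1, h1.2]
  · rw [hJ] at hD
    linarith

theorem exists_tilt {K L : ℝ} (hL : 0 < L) :
    ∃ lam : ℝ, 0 < lam ∧ lam ≤ 1 ∧ lam ^ 2 * K + L ≤ lam * (2 * Real.sqrt (K * L) + 2 * L) := by
  rcases le_total L K with h | h
  · have hK0 : 0 < K := lt_of_lt_of_le hL h
    refine ⟨Real.sqrt (L / K), Real.sqrt_pos.2 (by positivity), ?_, ?_⟩
    · rw [Real.sqrt_le_one]
      rw [div_le_one hK0]
      exact h
    · rw [Real.sq_sqrt (by positivity), div_mul_cancel₀ _ hK0.ne', mul_add]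
      have h1 : Real.sqrt (L / K) * (2 * Real.sqrt (K * L)) = 2 * L := by
        have h2 : Real.sqrt (L / K) * Real.sqrt (K * L) = L := by
          rw [← Real.sqrt_mul (by positivity)]
          have h3 : L / K * (K * L) = L ^ 2 := by
            field_simp
          rw [h3, Real.sqrt_sq hL.le]
        linarith
      rw [h1]
      have h2 : 0 ≤ Real.sqrt (L / K) * (2 * L) := by positivity
      linarith
  · refine ⟨1, one_pos, le_rfl, ?_⟩
    have := Real.sqrt_nonneg (K * L)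
    linarith

variable [DecidableEq ι]

/-- Additive rounding. -/
theorem round_add (A : ι → ι → ℝ) (hA : ∀ p q, A p q = 0 ∨ A p q = 1) (f : ι → ℝ)
    (hf : ∀ p, 0 ≤ f p ∧ f p ≤ 1) {d T s : ℝ} (hd : 0 ≤ d) (hT : 0 ≤ T) (hs : 1 ≤ s)
    (hw : ∀ p, 0 < f p → |mv A f p - d| ≤ T) (hm : ∑ p, f p = 4 * s) :
    ∃ S : Finset ι, s ≤ S.card ∧ (S.card : ℝ) ≤ 9 * s ∧
      ∀ p ∈ S, |∑ q ∈ S, A p q - d| ≤ T + (2 * Real.sqrt ((d + T) * Real.log (4 * Fintype.card ι)) + 2 * Real.log (4 * Fintype.card ι)) := by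
  obtain ⟨L, hLdef⟩ : ∃ L, L = Real.log (4 * Fintype.card ι) := ⟨_, rfl⟩
  rw [← hLdef]
  have hN : (1 : ℝ) ≤ Fintype.card ι := by
    have h1 : ∑ p, f p ≤ Fintype.card ι := by
      refine (sum_le_sum fun p _ => (hf p).2).trans (le_of_eq ?_)
      rw [sum_const, card_univ, nsmul_eq_mul, mul_one]
    linarith
  have hL0 : 0 < L := by
    rw [hLdef]
    exact Real.log_pos (by linarith)
  obtain ⟨lam, hlam0, hlam1, hlam⟩ := exists_tilt (K := d + T) hL0
  obtain ⟨t, htdef⟩ : ∃ t, t = 2 * Real.sqrt ((d + T) * L) + 2 * L := ⟨_, rfl⟩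
  rw [← htdef] at hlam ⊢
  obtain ⟨P, hP⟩ : ∃ P : Finset ι, P = univ.filter fun p => 0 < f p := ⟨_, rfl⟩
  obtain ⟨F1, hF1⟩ : ∃ F1 : ι → (ι → ℝ) → ℝ, ∀ p x, F1 p x =
      Real.exp (-(lam * (d + T + t))) * ∏ q, (1 + ((Real.exp lam - 1) * A p q) * x q) := ⟨_, fun _ _ => rfl⟩
  obtain ⟨F2, hF2⟩ : ∃ F2 : ι → (ι → ℝ) → ℝ, ∀ p x, F2 p x =
      Real.exp (lam * (d - T - t)) * ∏ q, (1 + ((Real.exp (-lam) - 1) * A p q) * x q) := ⟨_, fun _ _ => rfl⟩
  obtain ⟨F3, hF3⟩ : ∃ F3 : (ι → ℝ) → ℝ, ∀ x, F3 x =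
      Real.exp s * ∏ q, (1 + ((Real.exp (-1) - 1) * (1 : ι → ℝ) q) * x q) := ⟨_, fun _ => rfl⟩
  obtain ⟨F4, hF4⟩ : ∃ F4 : (ι → ℝ) → ℝ, ∀ x, F4 x =
      Real.exp (-(9 * s)) * ∏ q, (1 + ((Real.exp 1 - 1) * (1 : ι → ℝ) q) * x q) := ⟨_, fun _ => rfl⟩
  have hMA : IsMA fun x => (∑ p ∈ P, (F1 p x + F2 p x)) + (F3 x + F4 x) := by
    refine (isMA_sum _ _ fun p _ => IsMA.add ?_ ?_).add (IsMA.add ?_ ?_)
    · have h1 := (isMA_prod fun q => (Real.exp lam - 1) * A p q).smul (Real.exp (-(lam * (d + T + t))))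
      intro x r
      obtain ⟨α, β, h2⟩ := h1 x r
      exact ⟨α, β, fun t => by rw [hF1]; exact h2 t⟩
    · have h1 := (isMA_prod fun q => (Real.exp (-lam) - 1) * A p q).smul (Real.exp (lam * (d - T - t)))
      intro x r
      obtain ⟨α, β, h2⟩ := h1 x r
      exact ⟨α, β, fun t => by rw [hF2]; exact h2 t⟩
    · have h1 := (isMA_prod fun q : ι => (Real.exp (-1) - 1) * (1 : ι → ℝ) q).smul (Real.exp s)
      intro x r
      obtain ⟨α, β, h2⟩ := h1 x r
      exact ⟨α, β, fun t => by rw [hF3]; exact h2 t⟩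
    · have h1 := (isMA_prod fun q : ι => (Real.exp 1 - 1) * (1 : ι → ℝ) q).smul (Real.exp (-(9 * s)))
      intro x r
      obtain ⟨α, β, h2⟩ := h1 x r
      exact ⟨α, β, fun t => by rw [hF4]; exact h2 t⟩
  obtain ⟨S, hS, hSF⟩ := hMA.exists_vertex f hf
  have hexps : 0 ≤ Real.exp lam - 1 := by
    have := Real.add_one_le_exp lam
    linarith
  have hexpn1 : ∀ u : ℝ, -1 ≤ Real.exp (-u) - 1 := fun u => by
    have := Real.exp_pos (-u)
    linarith
  have hexpn0 : ∀ u : ℝ, 0 ≤ u → Real.exp (-u) - 1 ≤ 0 := fun u hu => by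
    have : Real.exp (-u) ≤ 1 := Real.exp_le_one_iff.2 (by linarith)
    linarith
  have hAf : ∀ p q, 0 ≤ A p q * f q ∧ A p q * f q ≤ 1 := by
    intro p q
    rcases hA p q with h | h
    · rw [h]; simp
    · rw [h, one_mul]; exact hf q
  have hsmall : Real.exp (-L) ≤ 1 / (4 * Fintype.card ι) := by
    rw [hLdef, Real.exp_neg, Real.exp_log (by positivity), one_div]
  have b1 : ∀ p ∈ P, F1 p f ≤ 1 / (4 * Fintype.card ι) := by
    intro p hp
    rw [hP, mem_filter] at hp
    have h1 := (abs_le.1 (hw p hp.2)).2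
    rw [hF1]
    have h2 : ∏ q, (1 + ((Real.exp lam - 1) * A p q) * f q) ≤ Real.exp (∑ q, ((Real.exp lam - 1) * A p q) * f q) :=
      prod_le_exp _ fun q => by
        have := mul_nonneg hexps (hAf p q).1
        nlinarith
    have h3 : ∑ q, ((Real.exp lam - 1) * A p q) * f q = (Real.exp lam - 1) * mv A f p := by
      unfold mv
      rw [mul_sum]
      exact sum_congr rfl fun q _ => by ring
    rw [h3] at h2
    have h4 : (Real.exp lam - 1) * mv A f p ≤ (lam + lam ^ 2) * (d + T) := by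
      have h5 : (Real.exp lam - 1) * mv A f p ≤ (Real.exp lam - 1) * (d + T) :=
        mul_le_mul_of_nonneg_left (by linarith) hexps
      exact h5.trans (mul_le_mul_of_nonneg_right (exp_sub_one_le hlam0.le hlam1) (by linarith))
    refine le_trans ?_ hsmall
    calc Real.exp (-(lam * (d + T + t))) * ∏ q, (1 + ((Real.exp lam - 1) * A p q) * f q)
        ≤ Real.exp (-(lam * (d + T + t))) * Real.exp ((lam + lam ^ 2) * (d + T)) :=
          mul_le_mul_of_nonneg_left (h2.trans (Real.exp_le_exp.2 h4)) (Real.exp_pos _).le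
      _ = Real.exp (-(lam * (d + T + t)) + (lam + lam ^ 2) * (d + T)) := (Real.exp_add _ _).symm
      _ ≤ Real.exp (-L) := by
          apply Real.exp_le_exp.2
          nlinarith
  have b2 : ∀ p ∈ P, F2 p f ≤ 1 / (4 * Fintype.card ι) := by
    intro p hp
    rw [hP, mem_filter] at hp
    have h1 := (abs_le.1 (hw p hp.2)).1
    rw [hF2]
    have h2 : ∏ q, (1 + ((Real.exp (-lam) - 1) * A p q) * f q) ≤ Real.exp (∑ q, ((Real.exp (-lam) - 1) * A p q) * f q) :=
      prod_le_exp _ fun q => by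
        have h5 := hexpn1 lam
        have h7 := hexpn0 lam hlam0.le
        have h6 := hAf p q
        nlinarith
    have h3 : ∑ q, ((Real.exp (-lam) - 1) * A p q) * f q = -((1 - Real.exp (-lam)) * mv A f p) := by
      unfold mv
      rw [mul_sum, ← sum_neg_distrib]
      exact sum_congr rfl fun q _ => by ring
    rw [h3] at h2
    have h0m : 0 ≤ mv A f p := sum_nonneg fun q _ => (hAf p q).1
    have hlam2 : 0 ≤ lam - lam ^ 2 := by nlinarith
    have h4 : (lam - lam ^ 2) * (d - T) ≤ (1 - Real.exp (-lam)) * mv A f p := by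
      have h5 : (lam - lam ^ 2) * (d - T) ≤ (lam - lam ^ 2) * mv A f p :=
        mul_le_mul_of_nonneg_left (by linarith) hlam2
      exact h5.trans (mul_le_mul_of_nonneg_right (one_sub_exp_ge hlam0.le hlam1) h0m)
    refine le_trans ?_ hsmall
    calc Real.exp (lam * (d - T - t)) * ∏ q, (1 + ((Real.exp (-lam) - 1) * A p q) * f q)
        ≤ Real.exp (lam * (d - T - t)) * Real.exp (-((lam - lam ^ 2) * (d - T))) :=
          mul_le_mul_of_nonneg_left (h2.trans (Real.exp_le_exp.2 (by linarith))) (Real.exp_pos _).le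
      _ = Real.exp (lam * (d - T - t) + -((lam - lam ^ 2) * (d - T))) := (Real.exp_add _ _).symm
      _ ≤ Real.exp (-L) := by
          apply Real.exp_le_exp.2
          have h6 : lam ^ 2 * (d - T) ≤ lam ^ 2 * (d + T) := mul_le_mul_of_nonneg_left (by linarith) (by positivity)
          nlinarith
  have he : Real.exp (-1) < 0.37 := by
    have := Real.exp_neg_one_lt_d9
    linarith
  have he1 : Real.exp 1 < 2.72 := by
    have := Real.exp_one_lt_d9
    linarith
  have e4 : (Real.exp (-1) : ℝ) ^ 2 ≤ 0.14 := by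
    have := Real.exp_pos (-1)
    nlinarith
  have b3 : F3 f ≤ 0.37 := by
    rw [hF3]
    have h2 : ∏ q, (1 + ((Real.exp (-1) - 1) * (1 : ι → ℝ) q) * f q) ≤
        Real.exp (∑ q, ((Real.exp (-1) - 1) * (1 : ι → ℝ) q) * f q) :=
      prod_le_exp _ fun q => by
        have h5 := hexpn1 1
        have h6 := hf q
        simp only [Pi.one_apply, mul_one]
        nlinarith
    have h3 : ∑ q, ((Real.exp (-1) - 1) * (1 : ι → ℝ) q) * f q = (Real.exp (-1) - 1) * (4 * s) := by
      rw [← hm, mul_sum]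
      exact sum_congr rfl fun q _ => by simp
    rw [h3] at h2
    have h5 : Real.exp s * ∏ q, (1 + ((Real.exp (-1) - 1) * (1 : ι → ℝ) q) * f q) ≤ Real.exp (-1) := by
      calc _ ≤ Real.exp s * Real.exp ((Real.exp (-1) - 1) * (4 * s)) :=
            mul_le_mul_of_nonneg_left h2 (Real.exp_pos _).le
        _ = Real.exp (s + (Real.exp (-1) - 1) * (4 * s)) := (Real.exp_add _ _).symm
        _ ≤ _ := by
          apply Real.exp_le_exp.2
          nlinarith
    linarith
  have b4 : F4 f < 0.13 := by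
    rw [hF4]
    have h2 : ∏ q, (1 + ((Real.exp 1 - 1) * (1 : ι → ℝ) q) * f q) ≤
        Real.exp (∑ q, ((Real.exp 1 - 1) * (1 : ι → ℝ) q) * f q) :=
      prod_le_exp _ fun q => by
        have h5 := Real.add_one_le_exp (1 : ℝ)
        have h6 := hf q
        simp only [Pi.one_apply, mul_one]
        nlinarith
    have h3 : ∑ q, ((Real.exp 1 - 1) * (1 : ι → ℝ) q) * f q = (Real.exp 1 - 1) * (4 * s) := by
      rw [← hm, mul_sum]
      exact sum_congr rfl fun q _ => by simp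
    rw [h3] at h2
    have h5 : Real.exp (-(9 * s)) * ∏ q, (1 + ((Real.exp 1 - 1) * (1 : ι → ℝ) q) * f q) ≤ Real.exp (-2.12) := by
      calc _ ≤ Real.exp (-(9 * s)) * Real.exp ((Real.exp 1 - 1) * (4 * s)) :=
            mul_le_mul_of_nonneg_left h2 (Real.exp_pos _).le
        _ = Real.exp (-(9 * s) + (Real.exp 1 - 1) * (4 * s)) := (Real.exp_add _ _).symm
        _ ≤ _ := by
          apply Real.exp_le_exp.2
          nlinarith
    have h6 : Real.exp (-2.12) ≤ Real.exp (-1) ^ 2 * Real.exp (-0.12) := by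
      rw [← Real.exp_nat_mul, ← Real.exp_add]
      norm_num
    have h7 : Real.exp (-0.12) ≤ 0.9 := by
      have h8 : (1 : ℝ) / 0.9 ≤ Real.exp 0.12 := by
        have := Real.add_one_le_exp (0.12 : ℝ)
        norm_num at this ⊢
        linarith
      rw [Real.exp_neg]
      rw [inv_le_comm₀ (Real.exp_pos _) (by norm_num)]
      rw [← one_div]
      exact h8
    have h8 : Real.exp (-1) ^ 2 * Real.exp (-0.12) ≤ 0.14 * 0.9 :=
      mul_le_mul e4 h7 (Real.exp_pos _).le (by norm_num)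
    exact lt_of_le_of_lt (h5.trans (h6.trans h8)) (by norm_num)
  have htot : (∑ p ∈ P, (F1 p f + F2 p f)) + (F3 f + F4 f) < 1 := by
    have h1 : ∑ p ∈ P, (F1 p f + F2 p f) ≤ 1 / 2 := by
      calc ∑ p ∈ P, (F1 p f + F2 p f) ≤ ∑ _p ∈ P, (1 / (2 * (Fintype.card ι : ℝ))) := by
            refine sum_le_sum fun p hp => ?_
            have h2 := b1 p hp
            have h3 := b2 p hp
            have h4 : (1 : ℝ) / (2 * Fintype.card ι) = 1 / (4 * Fintype.card ι) + 1 / (4 * Fintype.card ι) := by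
              field_simp
              ring
            rw [h4]
            linarith
        _ = P.card * (1 / (2 * (Fintype.card ι : ℝ))) := by rw [sum_const, nsmul_eq_mul]
        _ ≤ Fintype.card ι * (1 / (2 * (Fintype.card ι : ℝ))) := by
            refine mul_le_mul_of_nonneg_right ?_ (by positivity)
            exact_mod_cast card_le_univ P
        _ = 1 / 2 := by
            field_simp
    norm_num at b3 b4 ⊢
    linarith
  have hpos1 : ∀ p, 0 ≤ F1 p (fun p => if p ∈ S then 1 else 0) := by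
    intro p
    rw [hF1, prod_vertex _ (hA p)]
    positivity
  have hpos2 : ∀ p, 0 ≤ F2 p (fun p => if p ∈ S then 1 else 0) := by
    intro p
    rw [hF2, prod_vertex _ (hA p)]
    positivity
  have hpos3 : 0 ≤ F3 (fun p => if p ∈ S then 1 else 0) := by
    rw [hF3, prod_vertex (1 : ι → ℝ) (fun q => Or.inr rfl)]
    positivity
  have hpos4 : 0 ≤ F4 (fun p => if p ∈ S then 1 else 0) := by
    rw [hF4, prod_vertex (1 : ι → ℝ) (fun q => Or.inr rfl)]
    positivity
  have hSV : (∑ p ∈ P, (F1 p (fun p => if p ∈ S then 1 else 0) + F2 p (fun p => if p ∈ S then 1 else 0))) +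
      (F3 (fun p => if p ∈ S then 1 else 0) + F4 (fun p => if p ∈ S then 1 else 0)) < 1 := lt_of_le_of_lt hSF htot
  have hsum0 : 0 ≤ ∑ p ∈ P, (F1 p (fun p => if p ∈ S then 1 else 0) + F2 p (fun p => if p ∈ S then 1 else 0)) :=
    sum_nonneg fun p _ => add_nonneg (hpos1 p) (hpos2 p)
  refine ⟨S, ?_, ?_, fun p hp => ?_⟩
  · have h1 : F3 (fun p => if p ∈ S then 1 else 0) < 1 := by linarith
    rw [hF3, prod_vertex (1 : ι → ℝ) (fun q => Or.inr rfl), ← Real.exp_add, Real.exp_lt_one_iff] at h1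
    simp only [Pi.one_apply, sum_const, nsmul_eq_mul, mul_one] at h1
    linarith
  · have h1 : F4 (fun p => if p ∈ S then 1 else 0) < 1 := by linarith
    rw [hF4, prod_vertex (1 : ι → ℝ) (fun q => Or.inr rfl), ← Real.exp_add, Real.exp_lt_one_iff] at h1
    simp only [Pi.one_apply, sum_const, nsmul_eq_mul, mul_one] at h1
    linarith
  · have hpP : p ∈ P := by
      rw [hP, mem_filter]
      exact ⟨mem_univ _, hS p hp⟩
    have h1 := single_le_sum (f := fun p => (F1 p (fun p => if p ∈ S then 1 else 0) + F2 p (fun p => if p ∈ S then 1 else 0)))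
      (fun p _ => add_nonneg (hpos1 p) (hpos2 p)) hpP
    have h2 : F1 p (fun p => if p ∈ S then 1 else 0) < 1 := by linarith [hpos2 p]
    have h3 : F2 p (fun p => if p ∈ S then 1 else 0) < 1 := by linarith [hpos1 p]
    rw [hF1, prod_vertex _ (hA p), ← Real.exp_add, Real.exp_lt_one_iff] at h2
    rw [hF2, prod_vertex _ (hA p), ← Real.exp_add, Real.exp_lt_one_iff] at h3
    rw [abs_le]
    constructor
    · have h4 : lam * (d - T - t) < lam * ∑ q ∈ S, A p q := by linarith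
      have := (lt_of_mul_lt_mul_left h4 hlam0.le).le
      linarith
    · have h4 : lam * ∑ q ∈ S, A p q < lam * (d + T + t) := by linarith
      have := (lt_of_mul_lt_mul_left h4 hlam0.le).le
      linarith

/-- Small degree spread, matrix form. -/
theorem spread_mat (A : ι → ι → ℝ) (hA : ∀ p q, A p q = 0 ∨ A p q = 1) (hs : ∀ p q, A p q = A q p)
    (hN : 2 ≤ Fintype.card ι) {s : ℝ} (hs1 : 1 ≤ s) (hsN : s ≤ Fintype.card ι) :
    ∃ S : Finset ι, s ≤ S.card ∧ (S.card : ℝ) ≤ 9 * s ∧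
      ∀ u ∈ S, ∀ v ∈ S, ∑ q ∈ S, A u q ≤ ∑ q ∈ S, A v q +
        144 * (s ^ 2 / Fintype.card ι + Real.sqrt ((∑ q ∈ S, A v q) * Real.log (Fintype.card ι)) + Real.log (Fintype.card ι)) := by
  obtain ⟨N, hNdef⟩ : ∃ N : ℝ, N = (Fintype.card ι : ℝ) := ⟨_, rfl⟩
  have hN2 : (2 : ℝ) ≤ N := by rw [hNdef]; exact_mod_cast hN
  rw [← hNdef] at hsN ⊢
  have hN0 : 0 < N := by linarith
  have hlogN : 0 < Real.log N := Real.log_pos (by linarith)
  have hA0 : ∀ p q, 0 ≤ A p q := fun p q => by rcases hA p q with h | h <;> rw [h] <;> norm_num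
  have hA1 : ∀ p q, A p q ≤ 1 := fun p q => by rcases hA p q with h | h <;> rw [h] <;> norm_num
  by_cases hbig : N ^ 2 < 24 * s ^ 2
  · refine ⟨univ, ?_, ?_, fun u _ v _ => ?_⟩
    · rw [card_univ, ← hNdef]; exact hsN
    · rw [card_univ, ← hNdef]
      nlinarith
    · have h1 : ∑ q, A u q ≤ N := by
        rw [hNdef]
        refine (sum_le_sum fun q _ => hA1 u q).trans (le_of_eq ?_)
        rw [sum_const, card_univ, nsmul_eq_mul, mul_one]
      have h2 : 0 ≤ ∑ q, A v q := sum_nonneg fun q _ => hA0 v q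
      have h3 : N ≤ 24 * (s ^ 2 / N) := by
        rw [← mul_div_assoc, le_div_iff₀ hN0]
        nlinarith
      have h4 : 0 ≤ s ^ 2 / N := by positivity
      have h5 := Real.sqrt_nonneg ((∑ q, A v q) * Real.log N)
      linarith
  · push Not at hbig
    obtain ⟨T, hTdef⟩ : ∃ T, T = 24 * s ^ 2 / N := ⟨_, rfl⟩
    have hT0 : 0 < T := by rw [hTdef]; positivity
    have hTN : T ≤ N := by
      rw [hTdef, div_le_iff₀ hN0]
      nlinarith
    obtain ⟨r, f, hf, hw, hmass⟩ := sweep_add A hA hs hT0 (by rw [← hNdef]; exact hTN)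
    rw [← hNdef] at hmass
    have hTN2 : T * N = 24 * s ^ 2 := by
      rw [hTdef]
      field_simp
    rw [hTN2] at hmass
    obtain ⟨m, hmdef⟩ : ∃ m, m = ∑ p, f p := ⟨_, rfl⟩
    rw [← hmdef] at hmass
    have hm0 : 0 ≤ m := by
      rw [hmdef]
      exact sum_nonneg fun p _ => (hf p).1
    have hm4 : 4 * s ≤ m := by
      by_contra hc
      push Not at hc
      nlinarith
    have hmpos : 0 < m := by linarith
    obtain ⟨σ, hσdef⟩ : ∃ σ, σ = 4 * s / m := ⟨_, rfl⟩
    have hσ0 : 0 < σ := by rw [hσdef]; positivity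
    have hσ1 : σ ≤ 1 := by
      rw [hσdef, div_le_one hmpos]
      exact hm4
    obtain ⟨g, hg⟩ : ∃ g : ι → ℝ, ∀ p, g p = σ * f p := ⟨_, fun _ => rfl⟩
    have hg01 : ∀ p, 0 ≤ g p ∧ g p ≤ 1 := by
      intro p
      rw [hg]
      have := hf p
      constructor
      · exact mul_nonneg hσ0.le this.1
      · nlinarith [this.1, this.2]
    have hgsum : ∑ p, g p = 4 * s := by
      simp_rw [hg]
      rw [← mul_sum, ← hmdef, hσdef]
      field_simp
    have hmvg : ∀ p, mv A g p = σ * mv A f p := by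
      intro p
      unfold mv
      rw [mul_sum]
      refine sum_congr rfl fun q _ => ?_
      rw [hg]
      ring
    obtain ⟨μ, hμ⟩ : ∃ μ, μ = r * (4 * s) := ⟨_, rfl⟩
    have hwg : ∀ p, 0 < g p → |mv A g p - μ| ≤ T := by
      intro p hp
      have hfp : 0 < f p := by
        rw [hg] at hp
        exact (pos_iff_pos_of_mul_pos hp).1 hσ0
      have h1 := hw p hfp
      rw [← hmdef] at h1
      have h2 : mv A g p - μ = σ * (mv A f p - r * m) := by
        rw [hmvg, hμ, hσdef]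
        field_simp
      rw [h2, abs_mul, abs_of_pos hσ0]
      nlinarith [abs_nonneg (mv A f p - r * m)]
    obtain ⟨d, hd⟩ : ∃ d, d = max 0 μ := ⟨_, rfl⟩
    have hd0 : 0 ≤ d := by rw [hd]; exact le_max_left _ _
    have hwd : ∀ p, 0 < g p → |mv A g p - d| ≤ T := by
      intro p hp
      have h1 := abs_le.1 (hwg p hp)
      have h2 : 0 ≤ mv A g p := sum_nonneg fun q _ => mul_nonneg (hA0 p q) (hg01 q).1
      rw [abs_le, hd]
      rcases le_total 0 μ with h | h
      · rw [max_eq_right h]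
        exact h1
      · rw [max_eq_left h]
        constructor <;> linarith [h1.1, h1.2]
    obtain ⟨S, hS1, hS2, hS3⟩ := round_add A hA g hg01 hd0 hT0.le hs1 hwd hgsum
    refine ⟨S, hS1, hS2, fun u hu v hv => ?_⟩
    rw [← hNdef] at hS3
    obtain ⟨L, hLdef⟩ : ∃ L, L = Real.log (4 * N) := ⟨_, rfl⟩
    rw [← hLdef] at hS3
    have hL0 : 0 < L := by
      rw [hLdef]
      exact Real.log_pos (by linarith)
    have hL3 : L ≤ 3 * Real.log N := by
      have h2 : 3 * Real.log N = Real.log (N ^ 3) := by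
        rw [Real.log_pow]
        norm_num
      rw [h2, hLdef]
      apply Real.log_le_log (by positivity)
      nlinarith [mul_nonneg hN0.le (show (0 : ℝ) ≤ N ^ 2 - 4 by nlinarith)]
    obtain ⟨x, hx⟩ : ∃ x, x = ∑ q ∈ S, A u q := ⟨_, rfl⟩
    obtain ⟨δ, hδ⟩ : ∃ δ, δ = ∑ q ∈ S, A v q := ⟨_, rfl⟩
    have hδ0 : 0 ≤ δ := by
      rw [hδ]
      exact sum_nonneg fun q _ => hA0 v q
    have h1 := abs_le.1 (hS3 u hu)
    have h2 := abs_le.1 (hS3 v hv)
    rw [← hx] at h1 ⊢
    rw [← hδ] at h2 ⊢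
    obtain ⟨K, hK⟩ : ∃ K, K = d + T := ⟨_, rfl⟩
    rw [← hK] at h1 h2
    have hK0 : 0 ≤ K := by linarith
    obtain ⟨w, hw'⟩ : ∃ w, w = Real.sqrt (K * L) := ⟨_, rfl⟩
    rw [← hw'] at h1 h2
    have hw0 : 0 ≤ w := by rw [hw']; exact Real.sqrt_nonneg _
    have hw2 : w ^ 2 = K * L := by
      rw [hw']
      exact Real.sq_sqrt (by positivity)
    -- K ≤ 2 δ + 4 T + 8 L
    have hKb : K ≤ 2 * δ + 4 * T + 8 * L := by
      have h3 : 2 * w ≤ K / 2 + 2 * L := by
        nlinarith [sq_nonneg (K / 2 - 2 * L), sq_nonneg (2 * w - (K / 2 + 2 * L))]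
      linarith [h2.1]
    obtain ⟨z, hz⟩ : ∃ z, z = Real.sqrt (δ * L) := ⟨_, rfl⟩
    have hz0 : 0 ≤ z := by rw [hz]; exact Real.sqrt_nonneg _
    have hz2 : z ^ 2 = δ * L := by
      rw [hz]
      exact Real.sq_sqrt (by positivity)
    have hwb : w ≤ 3 / 2 * z + T + 4 * L := by
      by_contra hc
      push Not at hc
      have h3 : (3 / 2 * z + T + 4 * L) ^ 2 < w ^ 2 := by
        apply pow_lt_pow_left₀ hc (by positivity) (by norm_num)
      rw [hw2] at h3
      have h4 : K * L ≤ (2 * δ + 4 * T + 8 * L) * L := mul_le_mul_of_nonneg_right hKb hL0.le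
      nlinarith [mul_nonneg hz0 hT0.le, mul_nonneg hz0 hL0.le, mul_nonneg hT0.le hL0.le, sq_nonneg T, sq_nonneg L,
        mul_nonneg hδ0 hL0.le]
    have hzb : z ≤ 2 * Real.sqrt (δ * Real.log N) := by
      rw [hz]
      have h3 : 2 * Real.sqrt (δ * Real.log N) = Real.sqrt (4 * (δ * Real.log N)) := by
        have h4 : Real.sqrt 4 = 2 := by
          rw [show (4 : ℝ) = 2 ^ 2 by norm_num]
          exact Real.sqrt_sq (by norm_num)
        rw [Real.sqrt_mul (x := 4) (by norm_num) (δ * Real.log N), h4]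
      rw [h3]
      apply Real.sqrt_le_sqrt
      nlinarith [mul_nonneg hδ0 hlogN.le]
    have h5 := Real.sqrt_nonneg (δ * Real.log N)
    have h6 : T = 24 * (s ^ 2 / N) := by rw [hTdef]; ring
    have h7 : 0 ≤ s ^ 2 / N := by positivity
    linarith [h1.2, h2.1]

end Swp
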