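import Pool.Agent.Swp.Approx

/-!
# Swp.Sweep: the sweep theorem

For a path `A + φ(x) B` of symmetric matrices there are `x` and a fractional set `f` such that all the degrees `((A + φ(x) B) f)_p`, `f p > 0`, are in the window `[l2, l1]`, and `ψ(x) <f, B f> / 2`, the rate of change of
the functional, is at least the average forced by its boundary values.
-/

namespace Swp

open Finset

variable {ι : Type*} [Fintype ι]

theorem continuous_qf (M : ι → ι → ℝ) : Continuous fun f : ι → ℝ => qf M f := by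
  unfold qf mv
  fun_prop

theorem mv_MM_eq (A B : ι → ι → ℝ) (t : ℝ) (f : ι → ℝ) (p : ι) :
    mv (MM A B t) f p = mv A f p + t * mv B f p := by
  unfold mv MM
  rw [mul_sum, ← sum_add_distrib]
  exact sum_congr rfl fun q _ => by ring

theorem sweep (A B : ι → ι → ℝ) (hA : ∀ p q, A p q = A q p) (hB : ∀ p q, B p q = B q p)
    {φ ψ : ℝ → ℝ} (hφ : Continuous φ) (hψ : Continuous ψ) {l : ℝ} (hl : 0 < l)
    (hφψ : ∀ x y, 0 ≤ x → x ≤ y → y ≤ l → 0 ≤ φ x - φ y ∧ φ x - φ y ≤ (y - x) * ψ x)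
    {l1 l2 D : ℝ} (hl12 : l2 < l1) (hD : 0 < D)
    (h : ∀ a b : ι → ℝ, (∀ p, 0 ≤ a p ∧ a p ≤ 1) → (∀ p, 0 ≤ b p ∧ b p ≤ 1) →
      D ≤ QQ (MM A B (φ l)) l1 l2 1 b - QQ (MM A B (φ 0)) l1 l2 a 0) :
    ∃ x, 0 ≤ x ∧ x ≤ l ∧ ∃ f : ι → ℝ, (∀ p, 0 ≤ f p ∧ f p ≤ 1) ∧
      (∀ p, 0 < f p → l2 ≤ mv (MM A B (φ x)) f p ∧ mv (MM A B (φ x)) f p ≤ l1) ∧
      D ≤ l * ψ x * (qf B f / 2) := by
  obtain ⟨Cφ, hCφ⟩ := isCompact_Icc.exists_bound_of_continuousOn (s := Set.Icc 0 l) hφ.continuousOn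
  obtain ⟨Cψ, hCψ⟩ := isCompact_Icc.exists_bound_of_continuousOn (s := Set.Icc 0 l) hψ.continuousOn
  obtain ⟨τ, hτ, hap⟩ := approx A B hA hB hl (Cφ := Cφ) (Cψ := Cψ)
    (fun x h0 h1 => hCφ x ⟨h0, h1⟩) (fun x h0 h1 => hCψ x ⟨h0, h1⟩) hφψ hD h
  obtain ⟨K, hK⟩ : ∃ K : Set (ℝ × (ι → ℝ) × (ι → ℝ)), K = Set.Icc 0 l ×ˢ (Set.Icc 0 1 ×ˢ Set.Icc 0 1) := ⟨_, rfl⟩
  have hKc : IsCompact K := by
    rw [hK]
    exact isCompact_Icc.prod (isCompact_Icc.prod isCompact_Icc)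
  obtain ⟨Φ, hΦ⟩ : ∃ Φ : ℝ × (ι → ℝ) × (ι → ℝ) → ℝ, ∀ z, Φ z =
      ∑ p, |z.2.1 p - clip (z.2.1 p + τ * (l1 - mv (MM A B (φ z.1)) (z.2.1 - z.2.2) p))| +
      ∑ p, |z.2.2 p - clip (z.2.2 p + τ * (l2 - mv (MM A B (φ z.1)) (z.2.1 - z.2.2) p))| +
      max 0 (D - l * ψ z.1 * (qf B (z.2.1 - z.2.2) / 2)) := ⟨_, fun _ => rfl⟩
  have hΦc : Continuous Φ := by
    have e : Φ = fun z => ∑ p, |z.2.1 p - clip (z.2.1 p + τ * (l1 - mv (MM A B (φ z.1)) (z.2.1 - z.2.2) p))| +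
      ∑ p, |z.2.2 p - clip (z.2.2 p + τ * (l2 - mv (MM A B (φ z.1)) (z.2.1 - z.2.2) p))| +
      max 0 (D - l * ψ z.1 * (qf B (z.2.1 - z.2.2) / 2)) := funext hΦ
    rw [e]
    have hsub : Continuous fun z : ℝ × (ι → ℝ) × (ι → ℝ) => z.2.1 - z.2.2 := by fun_prop
    have hmv : ∀ p, Continuous fun z : ℝ × (ι → ℝ) × (ι → ℝ) => mv (MM A B (φ z.1)) (z.2.1 - z.2.2) p := by
      intro p
      simp_rw [mv_MM_eq]
      have h1 := (continuous_mv A p).comp hsub
      have h2 := (continuous_mv B p).comp hsub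
      exact h1.add ((hφ.comp continuous_fst).mul h2)
    have hq := (continuous_qf B).comp hsub
    have ha : ∀ p, Continuous fun z : ℝ × (ι → ℝ) × (ι → ℝ) => z.2.1 p := fun p => by fun_prop
    have hb : ∀ p, Continuous fun z : ℝ × (ι → ℝ) × (ι → ℝ) => z.2.2 p := fun p => by fun_prop
    refine ((continuous_finset_sum _ fun p _ => ?_).add (continuous_finset_sum _ fun p _ => ?_)).add ?_
    · exact ((ha p).sub (continuous_clip.comp ((ha p).add (continuous_const.mul (continuous_const.sub (hmv p)))))).abs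
    · exact ((hb p).sub (continuous_clip.comp ((hb p).add (continuous_const.mul (continuous_const.sub (hmv p)))))).abs
    · exact continuous_const.max (continuous_const.sub ((continuous_const.mul (hψ.comp continuous_fst)).mul (hq.div_const 2)))
  have hmem : ∀ δ : ℝ, 0 < δ → ∃ z ∈ K, Φ z ≤ (2 * (Fintype.card ι : ℝ) + 1) * δ := by
    intro δ hδ
    obtain ⟨x, h0, h1, a, b, ha, hb, hva, hvb, hval⟩ := hap δ hδ
    refine ⟨(x, a, b), ?_, ?_⟩
    · rw [hK]
      exact ⟨⟨h0, h1⟩, ⟨fun p => (ha p).1, fun p => (ha p).2⟩, ⟨fun p => (hb p).1, fun p => (hb p).2⟩⟩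
    · rw [hΦ]
      have s1 : ∑ p, |a p - clip (a p + τ * (l1 - mv (MM A B (φ x)) (a - b) p))| ≤ Fintype.card ι * δ := by
        refine (sum_le_sum fun p _ => hva p).trans (le_of_eq ?_)
        rw [sum_const, card_univ, nsmul_eq_mul]
      have s2 : ∑ p, |b p - clip (b p + τ * (l2 - mv (MM A B (φ x)) (a - b) p))| ≤ Fintype.card ι * δ := by
        refine (sum_le_sum fun p _ => hvb p).trans (le_of_eq ?_)
        rw [sum_const, card_univ, nsmul_eq_mul]
      have s3 : max 0 (D - l * ψ x * (qf B (a - b) / 2)) ≤ δ := max_le hδ.le (by linarith)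
      simp only
      linarith
  obtain ⟨z0, hz0, -⟩ := hmem 1 one_pos
  obtain ⟨z, hz, hmin⟩ := hKc.exists_isMinOn ⟨z0, hz0⟩ hΦc.continuousOn
  have hz00 : Φ z ≤ 0 := by
    by_contra hc
    push Not at hc
    have hN : (0 : ℝ) < 2 * (Fintype.card ι : ℝ) + 1 := by positivity
    obtain ⟨w, hw, hw2⟩ := hmem (Φ z / (2 * (2 * (Fintype.card ι : ℝ) + 1))) (by positivity)
    have h1 : Φ z ≤ Φ w := hmin hw
    have h2 : (2 * (Fintype.card ι : ℝ) + 1) * (Φ z / (2 * (2 * (Fintype.card ι : ℝ) + 1))) = Φ z / 2 := by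
      field_simp
    rw [h2] at hw2
    linarith
  rw [hΦ] at hz00
  have n1 : 0 ≤ ∑ p, |z.2.1 p - clip (z.2.1 p + τ * (l1 - mv (MM A B (φ z.1)) (z.2.1 - z.2.2) p))| :=
    sum_nonneg fun _ _ => abs_nonneg _
  have n2 : 0 ≤ ∑ p, |z.2.2 p - clip (z.2.2 p + τ * (l2 - mv (MM A B (φ z.1)) (z.2.1 - z.2.2) p))| :=
    sum_nonneg fun _ _ => abs_nonneg _
  have n3 : 0 ≤ max 0 (D - l * ψ z.1 * (qf B (z.2.1 - z.2.2) / 2)) := le_max_left _ _
  obtain ⟨x, a, b⟩ := z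
  simp only at hz00 n1 n2 n3
  have z1 : ∑ p, |a p - clip (a p + τ * (l1 - mv (MM A B (φ x)) (a - b) p))| = 0 := by linarith
  have z2 : ∑ p, |b p - clip (b p + τ * (l2 - mv (MM A B (φ x)) (a - b) p))| = 0 := by linarith
  have z3 : max 0 (D - l * ψ x * (qf B (a - b) / 2)) = 0 := by linarith
  have e1 : ∀ p, a p = clip (a p + τ * (l1 - mv (MM A B (φ x)) (a - b) p)) := by
    intro p
    have := (sum_eq_zero_iff_of_nonneg fun _ _ => abs_nonneg _).1 z1 p (mem_univ p)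
    exact sub_eq_zero.1 (abs_eq_zero.1 this)
  have e2 : ∀ p, b p = clip (b p + τ * (l2 - mv (MM A B (φ x)) (a - b) p)) := by
    intro p
    have := (sum_eq_zero_iff_of_nonneg fun _ _ => abs_nonneg _).1 z2 p (mem_univ p)
    exact sub_eq_zero.1 (abs_eq_zero.1 this)
  have e3 : D ≤ l * ψ x * (qf B (a - b) / 2) := by
    have := le_max_right 0 (D - l * ψ x * (qf B (a - b) / 2))
    linarith
  rw [hK] at hz
  obtain ⟨hx, ha, hb⟩ := hz
  -- the clip equations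
  have key : ∀ (c v : ℝ), 0 ≤ c → c ≤ 1 → c = clip (c + τ * v) → (0 < v → c = 1) ∧ (v < 0 → c = 0) := by
    intro c v h0 h1 hcv
    unfold clip at hcv
    constructor
    · intro hv
      have hp : 0 < τ * v := mul_pos hτ hv
      rcases le_total (c + τ * v) 1 with h2 | h2
      · rw [min_eq_right h2, max_eq_right (by linarith)] at hcv
        linarith
      · rw [min_eq_left h2, max_eq_right zero_le_one] at hcv
        exact hcv
    · intro hv
      have hp : τ * v < 0 := mul_neg_of_pos_of_neg hτ hv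
      rw [min_eq_right (by linarith)] at hcv
      rcases le_total 0 (c + τ * v) with h2 | h2
      · rw [max_eq_right h2] at hcv
        linarith
      · rw [max_eq_left h2] at hcv
        exact hcv
  have ha0 : ∀ p, 0 ≤ a p := fun p => ha.1 p
  have ha1 : ∀ p, a p ≤ 1 := fun p => ha.2 p
  have hb0 : ∀ p, 0 ≤ b p := fun p => hb.1 p
  have hb1 : ∀ p, b p ≤ 1 := fun p => hb.2 p
  refine ⟨x, hx.1, hx.2, a - b, fun p => ⟨?_, ?_⟩, fun p hp => ?_, e3⟩
  · rw [Pi.sub_apply]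
    have k1 := key (a p) _ (ha0 p) (ha1 p) (e1 p)
    have k2 := key (b p) _ (hb0 p) (hb1 p) (e2 p)
    rcases lt_or_ge (mv (MM A B (φ x)) (a - b) p) l1 with h1 | h1
    · rw [k1.1 (by linarith)]
      linarith [hb1 p]
    · rw [k2.2 (by linarith)]
      linarith [ha0 p]
  · rw [Pi.sub_apply]
    linarith [ha1 p, hb0 p]
  · rw [Pi.sub_apply] at hp
    have k1 := key (a p) _ (ha0 p) (ha1 p) (e1 p)
    have k2 := key (b p) _ (hb0 p) (hb1 p) (e2 p)
    constructor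
    · by_contra hc
      push Not at hc
      have := k2.1 (by linarith)
      linarith [ha1 p]
    · by_contra hc
      push Not at hc
      have := k1.2 (by linarith)
      linarith [hb0 p]

end Swp
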