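import Pool.Agent.Lib.Brouwer

/-!
# Swp.Traj: trajectories for the sweep theorem

A two-point boundary value problem for a projected gradient motion, solved with Brouwer's theorem: `b` starts at `0` and moves forwards, `a` ends at `1` and moves backwards.
-/

namespace Swp

open Finset

variable {ι : Type*} [Fintype ι]

/-- Projection to `[0,1]`. -/
noncomputable def clip (x : ℝ) : ℝ := max 0 (min 1 x)

theorem clip_nonneg (x : ℝ) : 0 ≤ clip x := le_max_left _ _

theorem clip_le (x : ℝ) : clip x ≤ 1 := max_le zero_le_one (min_le_left _ _)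

theorem continuous_clip : Continuous clip := by
  unfold clip
  fun_prop

theorem clip_step {x : ℝ} (h0 : 0 ≤ x) (h1 : x ≤ 1) (t : ℝ) :
    (clip (x + t) - x) ^ 2 ≤ (clip (x + t) - x) * t := by
  unfold clip
  rcases le_total (x + t) 1 with h | h
  · rw [min_eq_right h]
    rcases le_total 0 (x + t) with h' | h'
    · rw [max_eq_right h']
      have : x + t - x = t := by ring
      rw [this]
      nlinarith
    · rw [max_eq_left h']
      nlinarith
  · rw [min_eq_left h, max_eq_right zero_le_one]
    nlinarith

theorem clip_lip (x y : ℝ) : |clip x - clip y| ≤ |x - y| := by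
  unfold clip
  rw [max_comm 0 (min 1 x), max_comm 0 (min 1 y)]
  refine (abs_max_sub_max_le_abs (min 1 x) (min 1 y) 0).trans ?_
  have h := abs_min_sub_min_le_max (1 : ℝ) x 1 y
  rw [sub_self, abs_zero, max_eq_right (abs_nonneg _)] at h
  exact h

/-- Matrix times vector. -/
def mv (M : ι → ι → ℝ) (f : ι → ℝ) (p : ι) : ℝ := ∑ q, M p q * f q

/-- Quadratic form. -/
def qf (M : ι → ι → ℝ) (f : ι → ℝ) : ℝ := ∑ p, f p * mv M f p

theorem continuous_mv (M : ι → ι → ℝ) (p : ι) : Continuous fun f : ι → ℝ => mv M f p := by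
  unfold mv
  fun_prop

/-- The trajectory. -/
theorem exists_traj (M : ℕ → ι → ι → ℝ) (n : ℕ) (τ l1 l2 : ℝ) :
    ∃ a b : ℕ → ι → ℝ, (∀ k p, 0 ≤ a k p ∧ a k p ≤ 1) ∧ (∀ k p, 0 ≤ b k p ∧ b k p ≤ 1) ∧
      (∀ p, b 0 p = 0) ∧ (∀ p, a n p = 1) ∧
      (∀ k < n, ∀ p, a k p = clip (a (k + 1) p + τ * (l1 - mv (M (k + 1)) (a (k + 1) - b (k + 1)) p))) ∧
      (∀ k < n, ∀ p, b (k + 1) p = clip (b k p + τ * (l2 - mv (M k) (a k - b k) p))) := by
  classical
  let V := (Fin n → ι → ℝ) × (Fin n → ι → ℝ)
  let A : V → ℕ → ι → ℝ := fun x k => if h : k < n then x.1 ⟨k, h⟩ else 1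
  let B : V → ℕ → ι → ℝ := fun x k => if h : k ≠ 0 ∧ k - 1 < n then x.2 ⟨k - 1, h.2⟩ else 0
  have hA : ∀ k, Continuous fun x : V => A x k := by
    intro k
    by_cases h : k < n
    · simp only [A, h, dif_pos]
      exact (continuous_apply _).comp continuous_fst
    · simp only [A, h, dif_neg, not_false_eq_true]
      exact continuous_const
  have hB : ∀ k, Continuous fun x : V => B x k := by
    intro k
    by_cases h : k ≠ 0 ∧ k - 1 < n
    · simp only [B, h, dif_pos, ne_eq, not_false_eq_true, and_self]
      exact (continuous_apply _).comp continuous_snd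
    · simp only [B, h, dif_neg, not_false_eq_true]
      exact continuous_const
  let F : V → V := fun x =>
    (fun k p => clip (A x (k + 1) p + τ * (l1 - mv (M (k + 1)) (A x (k + 1) - B x (k + 1)) p)),
     fun k p => clip (B x k p + τ * (l2 - mv (M k) (A x k - B x k) p)))
  have hF : Continuous F := by
    refine Continuous.prodMk ?_ ?_
    · refine continuous_pi fun k => continuous_pi fun p => continuous_clip.comp ?_
      have h1 : Continuous fun x : V => mv (M (k + 1)) (A x (k + 1) - B x (k + 1)) p :=
        (continuous_mv (M (k + 1)) p).comp ((hA _).sub (hB _))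
      have h2 : Continuous fun x : V => A x (k + 1) p := (continuous_apply p).comp (hA _)
      fun_prop
    · refine continuous_pi fun k => continuous_pi fun p => continuous_clip.comp ?_
      have h1 : Continuous fun x : V => mv (M k) (A x k - B x k) p :=
        (continuous_mv (M k) p).comp ((hA _).sub (hB _))
      have h2 : Continuous fun x : V => B x k p := (continuous_apply p).comp (hB _)
      fun_prop
  have hle : (0 : V) ≤ 1 := by
    constructor
    · intro k p; exact zero_le_one
    · intro k p; exact zero_le_one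
  obtain ⟨x, hx, hfix⟩ := Pool.Lib.brouwer_fixed_point_convex (K := Set.Icc (0 : V) 1) (f := F)
    isCompact_Icc (convex_Icc _ _) (Set.nonempty_Icc.2 hle) hF.continuousOn (by
      intro x _
      constructor
      · constructor
        · intro k p; exact clip_nonneg _
        · intro k p; exact clip_nonneg _
      · constructor
        · intro k p; exact clip_le _
        · intro k p; exact clip_le _)
  refine ⟨A x, B x, ?_, ?_, ?_, ?_, ?_, ?_⟩
  · intro k p
    by_cases h : k < n
    · simp only [A, h, dif_pos]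
      exact ⟨hx.1.1 _ _, hx.2.1 _ _⟩
    · simp only [A, h, dif_neg, not_false_eq_true]
      exact ⟨zero_le_one, le_refl _⟩
  · intro k p
    by_cases h : k ≠ 0 ∧ k - 1 < n
    · simp only [B, h, dif_pos, ne_eq, not_false_eq_true, and_self]
      exact ⟨hx.1.2 _ _, hx.2.2 _ _⟩
    · simp only [B, h, dif_neg, not_false_eq_true]
      exact ⟨le_refl _, zero_le_one⟩
  · intro p
    simp [B]
  · intro p
    simp [A]
  · intro k hk p
    have h1 : A x k = x.1 ⟨k, hk⟩ := by simp only [A, hk, dif_pos]
    rw [h1]
    conv_lhs => rw [← hfix]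
  · intro k hk p
    have h1 : B x (k + 1) = x.2 ⟨k, hk⟩ := by
      have h : (k + 1) ≠ 0 ∧ (k + 1) - 1 < n := ⟨by omega, by omega⟩
      exact dif_pos h
    rw [h1]
    conv_lhs => rw [← hfix]

end Swp
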